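import Pool.Agent.W795.TQ.DStm

/-!
The criterion for the Navier-Stokes equations with Dirichlet boundary conditions, in the abstract
frame.
-/

open MeasureTheory Set Filter Topology
open scoped InnerProductSpace

namespace Pool.Agent.W795.TQ

open H772R2.NSR (Frame grad_unique prim_cont)

section

variable {H K : Type} [NormedAddCommGroup H] [InnerProductSpace ℝ H] [CompleteSpace H]
  [NormedAddCommGroup K] [InnerProductSpace ℝ K] [CompleteSpace K]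
  {W : Submodule ℝ (H × K)} {m : H → K} {C ν T : ℝ} {F F1 : ℝ → K}

/-- the gradient of `v t` -/
noncomputable def gz (W : Submodule ℝ (H × K)) (v : ℝ → H) (t : ℝ) : K :=
  open Classical in if h : ∃ ζ, (v t, ζ) ∈ W then h.choose else 0

theorem gz_eq (Fr : Frame W m C) {v : ℝ → H} {t : ℝ} {ζ : K} (h : (v t, ζ) ∈ W) :
    gz W v t = ζ := by
  have h1 : ∃ ζ, (v t, ζ) ∈ W := ⟨ζ, h⟩
  unfold gz
  rw [dif_pos h1]
  exact grad_unique Fr h1.choose_spec h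

theorem Str.mono {τ t : ℝ} {u u1 : ℝ → H} {z z1 : ℝ → K} (hu : Str W m ν τ F u u1 z z1)
    (ht : t ≤ τ) : Str W m ν t F u u1 z z1 := by
  have hsub : (volume.restrict (Ioc 0 t) : Measure ℝ) ≤ volume.restrict (Ioc 0 τ) :=
    Measure.restrict_mono (Ioc_subset_Ioc_right ht) le_rfl
  have hI : ∀ s ∈ Icc 0 t, s ∈ Icc 0 τ := fun s hs => ⟨hs.1, hs.2.trans ht⟩
  obtain ⟨c, hc⟩ := hu.bd
  exact ⟨fun s hs => hu.mem s (hI s hs), ae_mono hsub hu.mem1, ⟨c, ae_mono hsub hc⟩,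
    hu.u1m.mono_measure hsub, hu.z1m.mono_measure hsub,
    fun a b ha hab hb => hu.pu a b ha hab (hb.trans ht),
    fun a b ha hab hb => hu.pz a b ha hab (hb.trans ht),
    fun p hp s hs => hu.weak p hp s (hI s hs), fun s hs => hu.energy s (hI s hs)⟩

/-- the times up to which there is a strong solution -/
def TS (W : Submodule ℝ (H × K)) (m : H → K) (ν T : ℝ) (F : ℝ → K) (x0 : H) : Set ℝ :=
  {τ | 0 < τ ∧ τ ≤ T ∧ ∃ (u u1 : ℝ → H) (z z1 : ℝ → K), Str W m ν τ F u u1 z z1 ∧ u 0 = x0}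

end

theorem dcrit (hit : S_iter) (hode : S_ode) (htp : S_dtp) (he1 : S_est1) (he2 : S_est2)
    (hloc : S_loc) (huni : S_uni) : ∀ c : ℝ, 0 < c → ∃ k : ℝ, 0 < k ∧
    ∀ (H K : Type) [NormedAddCommGroup H] [InnerProductSpace ℝ H] [CompleteSpace H]
      [NormedAddCommGroup K] [InnerProductSpace ℝ K] [CompleteSpace K]
      (W : Submodule ℝ (H × K)) (m : H → K) (C ν T : ℝ) (F F1 : ℝ → K) (x0 g0 : H) (z0 : K)
      (v : ℝ → H) (y : ℝ → K), Frame W m C → Univ W m c →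
      (∀ R : ℝ, TotallyBounded {v : H | ∃ z, (v, z) ∈ W ∧ ‖z‖ ≤ R}) →
      0 < ν → 0 < T → FH T F F1 → (x0, z0) ∈ W →
      (∀ p ∈ W, ⟪F 0 - ν • z0 + m x0, p.2⟫_ℝ = ⟪g0, p.1⟫_ℝ) →
      H772R2.NSG.LH W m T (fun _ => ν) F x0 v y →
      (∃ (u u1 : ℝ → H) (z z1 : ℝ → K), Str W m ν T F u u1 z z1 ∧ ∀ t ∈ Icc 0 T, v t = u t) ∨
      ∃ τ ∈ Ioc 0 T, (∀ t ∈ Ioo 0 τ, ∃ (u u1 : ℝ → H) (z z1 : ℝ → K), Str W m ν t F u u1 z z1 ∧
          ∀ s ∈ Icc 0 t, v s = u s) ∧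
        ∀ (U : H) (h0 : ℝ), 0 < h0 → h0 ≤ τ → ∃ h : ℝ, 0 < h ∧ h ≤ h0 ∧
          k * ν ^ (5 / 2 : ℝ) * h ^ (3 / 2 : ℝ) < ∫ t in (τ - h)..τ, ‖v t - U‖ ^ 2 := by
  intro c hc
  obtain ⟨C0, hC0, hTP⟩ := htp c hc
  obtain ⟨C1, hC1, hIt⟩ := hit C0 hC0
  obtain ⟨ε, C7, hε, hC7, hOd⟩ := hode c hc
  set k0 : ℝ := min 1 (ε / (2 * C1)) with hk0
  have hk0p : 0 < k0 := lt_min one_pos (by positivity)
  have hk01 : k0 ≤ 1 := min_le_left _ _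
  have hk0e : C1 * k0 ^ 2 ≤ ε / 2 := by
    have h1 : k0 ^ 2 ≤ k0 := by
      rw [sq]
      exact mul_le_of_le_one_left hk0p.le hk01
    have h2 : k0 ≤ ε / (2 * C1) := min_le_right _ _
    calc C1 * k0 ^ 2 ≤ C1 * (ε / (2 * C1)) := by
          gcongr
          exact h1.trans h2
      _ = ε / 2 := by field_simp
  refine ⟨k0 ^ 2, by positivity, ?_⟩
  intro H K _ _ _ _ _ _ W m C ν T F F1 x0 g0 z0 v y Fr Un hcomp hν hT hF h0 hg L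
  by_contra hcon0
  obtain ⟨hcon, hyp0⟩ := not_or.1 hcon0
  have hyp : ∀ τ ∈ Ioc 0 T, (∀ t ∈ Ioo 0 τ, ∃ (u u1 : ℝ → H) (z z1 : ℝ → K),
      Str W m ν t F u u1 z z1 ∧ ∀ s ∈ Icc 0 t, v s = u s) →
      ∃ (U : H) (h0 : ℝ), 0 < h0 ∧ h0 ≤ τ ∧ ∀ h : ℝ, 0 < h → h ≤ h0 →
        ∫ t in (τ - h)..τ, ‖v t - U‖ ^ 2 ≤ k0 ^ 2 * ν ^ (5 / 2 : ℝ) * h ^ (3 / 2 : ℝ) := by
    intro τ hτ h1
    by_contra h2
    refine hyp0 ⟨τ, hτ, h1, fun U h0 h3 h4 => ?_⟩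
    by_contra h5
    refine h2 ⟨U, h0, h3, h4, fun h h6 h7 => ?_⟩
    by_contra h8
    exact h5 ⟨h, h6, h7, not_le.1 h8⟩
  have hFc : ContinuousOn F (Icc 0 T) := prim_cont hF.memLp hF.prim
  -- a bound of the force
  obtain ⟨Φ, hΦ0, hΦ⟩ : ∃ Φ : ℝ, 0 ≤ Φ ∧ ∀ t ∈ Icc 0 T, ‖F t‖ ≤ Φ := by
    obtain ⟨B, hB⟩ := (isCompact_Icc.image_of_continuousOn hFc).isBounded.exists_norm_le
    exact ⟨max B 0, le_max_right _ _, fun t ht => (hB _ ⟨t, ht, rfl⟩).trans (le_max_left _ _)⟩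
  have hF1i : IntegrableOn (fun s => ‖F1 s‖ ^ 2) (Ioc 0 T) :=
    (memLp_two_iff_integrable_sq_norm hF.memLp.aestronglyMeasurable).mp hF.memLp
  set G : ℝ := ∫ s in (0 : ℝ)..T, ‖F1 s‖ ^ 2 with hG
  have hG0 : 0 ≤ G := intervalIntegral.integral_nonneg hT.le fun s _ => by positivity
  have hGle : ∀ a b : ℝ, 0 ≤ a → a ≤ b → b ≤ T → ∫ s in a..b, ‖F1 s‖ ^ 2 ≤ G := by
    intro a b ha hab hb
    rw [hG, intervalIntegral.integral_of_le hab, intervalIntegral.integral_of_le hT.le]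
    exact setIntegral_mono_set hF1i (Eventually.of_forall fun s => by positivity)
      (Ioc_subset_Ioc ha hb).eventuallyLE
  have hFH : ∀ τ ≤ T, FH τ F F1 := fun τ hτ =>
    ⟨hF.memLp.mono_measure (Measure.restrict_mono (Ioc_subset_Ioc_right hτ) le_rfl),
      fun a b ha hab hb => hF.prim a b ha hab (hb.trans hτ)⟩
  set S := TS W m ν T F x0 with hS
  -- there is no strong solution on the whole interval
  have hTS : T ∉ S := by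
    rintro ⟨_, _, u, u1, z, z1, hu, hu0⟩
    exact hcon ⟨u, u1, z, z1, hu,
      (huni H K W m C ν T T F x0 v u u1 y z z1 Fr hν hT le_rfl hFc L hu hu0).1⟩
  set zz := gz W v with hzz
  -- the strong solutions coincide with `v`
  have hA : ∀ τ u u1 z z1, 0 < τ → τ ≤ T → Str W m ν τ F u u1 z z1 → u 0 = x0 →
      (∀ t ∈ Icc 0 τ, v t = u t) ∧ (∀ t ∈ Icc 0 τ, zz t = z t) ∧
      (∀ᵐ s ∂(volume.restrict (Ioc 0 τ)), y s = zz s) := by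
    intro τ u u1 z z1 hτ hτT hu hu0
    obtain ⟨h1, h2⟩ := huni H K W m C ν T τ F x0 v u u1 y z z1 Fr hν hτ hτT hFc L hu hu0
    have h3 : ∀ t ∈ Icc 0 τ, zz t = z t := fun t ht => gz_eq Fr (by
      rw [h1 t ht]
      exact hu.mem t ht)
    refine ⟨h1, h3, ?_⟩
    filter_upwards [h2, ae_restrict_mem measurableSet_Ioc] with s hs hsm
    rw [hs, h3 s (Ioc_subset_Icc_self hsm)]
  have hzc : ∀ {τ u u1 z z1}, Str W m ν τ F u u1 z z1 → ContinuousOn z (Icc 0 τ) :=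
    fun hu => prim_cont hu.z1m hu.pz
  have huc : ∀ {τ u u1 z z1}, Str W m ν τ F u u1 z z1 → ContinuousOn u (Icc 0 τ) :=
    fun hu => prim_cont hu.u1m hu.pu
  -- strong solutions with large gradient
  have hB : ∀ N : ℝ, ∃ τ ∈ S, N ≤ ‖zz τ‖ := by
    intro N
    obtain ⟨τ, u, u1, z, z1, k1, k2, k3, k4, k5⟩ := hloc H K W m C ν T F F1 x0 g0 z0
      (max N (‖z0‖ + 1)) Fr hcomp hν hT hF h0 hg
      (lt_of_lt_of_le (by linarith) (le_max_right _ _))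
    have hτS : τ ∈ S := ⟨k1, k2, u, u1, z, z1, k3, k4⟩
    refine ⟨τ, hτS, ?_⟩
    rcases k5 with k5 | k5
    · rw [k5] at hτS
      exact absurd hτS hTS
    · rw [(hA τ u u1 z z1 k1 k2 k3 k4).2.1 τ ⟨k1.le, le_rfl⟩]
      exact (le_max_left _ _).trans k5
  have hSb : BddAbove S := ⟨T, fun τ hτ => hτ.2.1⟩
  obtain ⟨τ0, hτ0, _⟩ := hB 0
  have hSn : S.Nonempty := ⟨τ0, hτ0⟩
  set Ts := sSup S with hTs
  have hTsT : Ts ≤ T := csSup_le hSn fun τ hτ => hτ.2.1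
  have hTs0 : 0 < Ts := hτ0.1.trans_le (le_csSup hSb hτ0)
  have hleTs : ∀ τ ∈ S, τ ≤ Ts := fun τ hτ => le_csSup hSb hτ
  have hbdd : ∀ τ ∈ S, ∃ R : ℝ, ∀ t ∈ Icc 0 τ, ‖zz t‖ ≤ R := by
    rintro τ ⟨k1, k2, u, u1, z, z1, k3, k4⟩
    obtain ⟨R, hR⟩ := (isCompact_Icc.image_of_continuousOn (hzc k3)).isBounded.exists_norm_le
    refine ⟨R, fun t ht => ?_⟩
    rw [(hA τ u u1 z z1 k1 k2 k3 k4).2.1 t ht]
    exact hR _ ⟨t, ht, rfl⟩
  have hltTs : ∀ τ ∈ S, τ < Ts := by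
    intro τ hτ
    refine lt_of_le_of_ne (hleTs τ hτ) fun heq => ?_
    obtain ⟨R, hR⟩ := hbdd τ hτ
    obtain ⟨τ', hτ', h1⟩ := hB (R + 1)
    have h2 := hR τ' ⟨hτ'.1.le, (hleTs τ' hτ').trans heq.ge⟩
    linarith
  have hex : ∀ t < Ts, ∃ τ ∈ S, t < τ := fun t ht => exists_lt_of_lt_csSup hSn ht
  -- the gradient is square integrable up to `Ts`
  have hae : ∀ᵐ s ∂(volume.restrict (Ioo 0 Ts)), y s = zz s := by
    have h1 : ∀ n : ℕ, ∃ τ ∈ S, Ts - 1 / ((n : ℝ) + 1) < τ := fun n => hex _ (by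
      have : (0 : ℝ) < 1 / ((n : ℝ) + 1) := by positivity
      linarith)
    choose τ hτS hτ using h1
    have hsub : Ioo 0 Ts ⊆ ⋃ n, Ioc 0 (τ n) := by
      intro s hs
      obtain ⟨n, hn⟩ := exists_nat_one_div_lt (show 0 < Ts - s by linarith [hs.2])
      exact mem_iUnion.2 ⟨n, hs.1, by linarith [hτ n]⟩
    refine ae_mono (Measure.restrict_mono hsub le_rfl) ?_
    refine (ae_restrict_iUnion_iff (fun n => Ioc 0 (τ n)) (fun s => y s = zz s)).2 ?_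
    intro n
    obtain ⟨k1, k2, u, u1, z, z1, k3, k4⟩ := hτS n
    exact (hA _ u u1 z z1 k1 k2 k3 k4).2.2
  have hy2 : IntegrableOn (fun s => ‖y s‖ ^ 2) (Ioc 0 T) :=
    (memLp_two_iff_integrable_sq_norm L.z2.aestronglyMeasurable).mp L.z2
  have hzi : IntegrableOn (fun s => ‖zz s‖ ^ 2) (Ioo 0 Ts) := by
    refine (hy2.mono_set (fun s hs => ⟨hs.1, hs.2.le.trans hTsT⟩)).congr ?_
    filter_upwards [hae] with s hs
    rw [hs]
  -- the hypothesis at the time `Ts`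
  obtain ⟨U, hh, hh0, hhT, hypU⟩ := hyp Ts ⟨hTs0, hTsT⟩ (fun t ht => by
    obtain ⟨τ, ⟨k1, k2, u, u1, z, z1, k3, k4⟩, hlt⟩ := hex t ht.2
    exact ⟨u, u1, z, z1, k3.mono hlt.le, fun s hs =>
      (hA τ u u1 z z1 k1 k2 k3 k4).1 s ⟨hs.1, hs.2.trans hlt.le⟩⟩)
  have hν32 : 0 < ν ^ (3 / 2 : ℝ) := Real.rpow_pos_of_pos hν _
  have hν54 : 0 < ν ^ (5 / 4 : ℝ) := Real.rpow_pos_of_pos hν _
  have hν52 : 0 < ν ^ (5 / 2 : ℝ) := Real.rpow_pos_of_pos hν _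
  have hν72 : 0 < ν ^ (7 / 2 : ℝ) := Real.rpow_pos_of_pos hν _
  have e54 : (ν ^ (5 / 4 : ℝ)) ^ 2 = ν ^ (5 / 2 : ℝ) := by
    rw [← Real.rpow_natCast, ← Real.rpow_mul hν.le]
    norm_num
  set yy : ℝ → ℝ := fun t => ‖zz t‖ ^ 2 / ν ^ (3 / 2 : ℝ) with hyy
  set d : ℝ → ℝ := fun t => ‖v t - U‖ / ν ^ (5 / 4 : ℝ) with hd
  have hd2 : ∀ t, d t ^ 2 = ‖v t - U‖ ^ 2 / ν ^ (5 / 2 : ℝ) := fun t => by
    simp only [hd]
    rw [div_pow, e54]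
  have hTPv : TP C0 (Φ ^ 2 / ν ^ (7 / 2 : ℝ)) Ts hh yy d := by
    intro t1 ht1 a ha b hb hab
    have hmax : max t1 b < Ts := max_lt ht1.2 hb.2
    obtain ⟨τ, ⟨k1, k2, u, u1, z, z1, k3, k4⟩, hlt⟩ := hex _ hmax
    obtain ⟨q1, q2, _⟩ := hA τ u u1 z z1 k1 k2 k3 k4
    have ht1' : t1 ∈ Icc 0 τ := ⟨by linarith [ht1.1], ((le_max_left _ _).trans hlt.le)⟩
    have hb' : b ∈ Icc 0 τ := ⟨by linarith [hb.1], ((le_max_right _ _).trans hlt.le)⟩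
    have ha' : a ∈ Icc 0 τ := ⟨by linarith [ha.1], hab.trans hb'.2⟩
    have key := hTP H K W m C ν τ F u u1 z z1 Φ U Fr Un hν k1
      (hFc.mono (Icc_subset_Icc_right k2)) k3 hΦ0 (fun t ht => hΦ t ⟨ht.1, ht.2.trans k2⟩)
      t1 ht1' a ha' b hb' hab
    have hsub : ∀ s ∈ uIcc a b, s ∈ Icc 0 τ := fun s hs => by
      rw [uIcc_of_le hab] at hs
      exact ⟨ha'.1.trans hs.1, hs.2.trans hb'.2⟩
    have e1 : ∫ s in a..b, yy s = ∫ s in a..b, ‖z s‖ ^ 2 / ν ^ (3 / 2 : ℝ) :=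
      intervalIntegral.integral_congr fun s hs => by
        simp only [hyy]
        rw [q2 s (hsub s hs)]
    have e2 : ∫ s in a..b, (yy t1 + Φ ^ 2 / ν ^ (7 / 2 : ℝ)
        + (yy t1 ^ 2 + Φ ^ 2 / ν ^ (7 / 2 : ℝ)) * (d s ^ 2 + d t1 ^ 2))
        = ∫ s in a..b, (‖z t1‖ ^ 2 / ν ^ (3 / 2 : ℝ) + Φ ^ 2 / ν ^ (7 / 2 : ℝ)
          + ((‖z t1‖ ^ 2 / ν ^ (3 / 2 : ℝ)) ^ 2 + Φ ^ 2 / ν ^ (7 / 2 : ℝ))
            * ((‖u s - U‖ / ν ^ (5 / 4 : ℝ)) ^ 2 + (‖u t1 - U‖ / ν ^ (5 / 4 : ℝ)) ^ 2)) :=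
      intervalIntegral.integral_congr fun s hs => by
        simp only [hyy, hd]
        rw [q2 t1 ht1', q1 t1 ht1', q1 s (hsub s hs)]
    rw [e1, e2]
    simp only [hd]
    rw [q1 t1 ht1', q1 a ha', q1 b hb']
    exact key
  obtain ⟨Mv, hMv⟩ := L.bdd hν.le ⟨memLp_const _, Eventually.of_forall fun _ => le_rfl,
    H772R2.NSG.mem_cont hFc⟩
  have hdi : IntegrableOn (fun t => d t ^ 2) (Ioo (Ts - hh) Ts) := by
    have hsub : Ioo (Ts - hh) Ts ⊆ Ioc 0 T := fun s hs =>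
      ⟨by linarith [hs.1], hs.2.le.trans hTsT⟩
    have hm : AEStronglyMeasurable (fun t => ‖v t - U‖ ^ 2 / ν ^ (5 / 2 : ℝ))
        (volume.restrict (Ioo (Ts - hh) Ts)) := by
      have h1 : AEStronglyMeasurable (fun t => v t - U) (volume.restrict (Ioo (Ts - hh) Ts)) :=
        (L.meas.mono_measure (Measure.restrict_mono hsub le_rfl)).sub
          (aestronglyMeasurable_const (b := U))
      have hcn : Continuous fun x : H => ‖x‖ ^ 2 / ν ^ (5 / 2 : ℝ) := by fun_prop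
      exact hcn.comp_aestronglyMeasurable h1
    simp_rw [hd2]
    refine Integrable.of_bound hm ((Mv + ‖U‖) ^ 2 / ν ^ (5 / 2 : ℝ)) ?_
    filter_upwards [ae_restrict_mem measurableSet_Ioo] with s hs
    rw [Real.norm_eq_abs, abs_of_nonneg (by positivity)]
    have h1 : ‖v s - U‖ ≤ Mv + ‖U‖ := (norm_sub_le _ _).trans
      (add_le_add_left (hMv s (Ioc_subset_Icc_self (hsub hs))) _)
    gcongr
  -- choice of the scale
  set L' : ℝ := (Φ ^ 2 + T * G) / ν ^ 2 with hL'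
  have hL'0 : 0 ≤ L' := by positivity
  obtain ⟨h1, hh1, hh1'⟩ : ∃ h1 : ℝ, 0 < h1 ∧ L' * Real.sqrt h1 ≤ ε / 2 * ν ^ (3 / 2 : ℝ) := by
    refine ⟨((ε / 2 * ν ^ (3 / 2 : ℝ)) / (L' + 1)) ^ 2, by positivity, ?_⟩
    rw [Real.sqrt_sq (by positivity), mul_div_assoc', div_le_iff₀ (by positivity)]
    have : 0 ≤ ε / 2 * ν ^ (3 / 2 : ℝ) := by positivity
    nlinarith
  obtain ⟨h, hhp, hhlt, hhle, hI⟩ := hIt k0 (Φ ^ 2 / ν ^ (7 / 2 : ℝ)) Ts hh yy d hk0p hk01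
    (by positivity) hh0 (fun t => by simp only [hyy]; positivity)
    (fun t => by simp only [hd]; positivity)
    ((hzi.mono_set (fun s hs => ⟨by linarith [hs.1], hs.2⟩)).div_const _) hdi hTPv
    (fun h' hh' hh'' => by
      simp_rw [hd2]
      rw [intervalIntegral.integral_div, div_le_iff₀ hν52]
      refine (hypU h' hh' hh'').trans (le_of_eq ?_)
      ring) h1 hh1
  -- a good time
  have hsub1 : Ioo (Ts - h) Ts ⊆ Ioo 0 Ts := fun s hs => ⟨by linarith [hs.1], hs.2⟩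
  obtain ⟨t0, ht0, hle⟩ := exists_le_setAverage (μ := volume) (s := Ioo (Ts - h) Ts)
    (f := yy) (by simp [hhp]) (by simp) ((hzi.mono_set hsub1).div_const _)
  have hav : ⨍ t in Ioo (Ts - h) Ts, yy t = h⁻¹ * ∫ t in (Ts - h)..Ts, yy t := by
    rw [setAverage_eq, intervalIntegral.integral_of_le (by linarith), integral_Ioc_eq_integral_Ioo,
      Measure.real, Real.volume_Ioo, sub_sub_cancel, ENNReal.toReal_ofReal hhp.le, smul_eq_mul]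
  rw [hav] at hle
  have hs0 : 0 < Real.sqrt h := Real.sqrt_pos.2 hhp
  have hs2 : Real.sqrt h ^ 2 = h := Real.sq_sqrt hhp.le
  have hy0 : ‖zz t0‖ ^ 2 * Real.sqrt h ≤ ε / 2 * ν ^ (3 / 2 : ℝ) := by
    have h2 : yy t0 ≤ C1 * k0 ^ 2 / Real.sqrt h := by
      refine hle.trans ?_
      calc h⁻¹ * ∫ t in (Ts - h)..Ts, yy t ≤ h⁻¹ * (C1 * (k0 ^ 2 * Real.sqrt h)) := by gcongr
        _ = C1 * k0 ^ 2 / Real.sqrt h := by
            nth_rewrite 1 [← hs2]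
            field_simp
    have h3 : ‖zz t0‖ ^ 2 = yy t0 * ν ^ (3 / 2 : ℝ) := by
      simp only [hyy]
      field_simp
    rw [h3]
    calc yy t0 * ν ^ (3 / 2 : ℝ) * Real.sqrt h
        ≤ (C1 * k0 ^ 2 / Real.sqrt h) * ν ^ (3 / 2 : ℝ) * Real.sqrt h := by gcongr
      _ = C1 * k0 ^ 2 * ν ^ (3 / 2 : ℝ) := by field_simp
      _ ≤ ε / 2 * ν ^ (3 / 2 : ℝ) := by gcongr
  have ht00 : 0 < t0 := (hsub1 ht0).1
  -- the gradient stays bounded after `t0`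
  obtain ⟨τa, hτa, hta⟩ := hex t0 ht0.2
  obtain ⟨Ra, hRa⟩ := hbdd τa hτa
  set Bd : ℝ := C7 * (‖zz t0‖ ^ 2 + L') with hBd
  have hBd0 : 0 ≤ Bd := by positivity
  obtain ⟨τ, ⟨k1, k2, u, u1, z, z1, k3, k4⟩, hNle⟩ := hB (max (Ra + 1) (Bd + 1))
  obtain ⟨q1, q2, _⟩ := hA τ u u1 z z1 k1 k2 k3 k4
  have hτS : τ ∈ S := ⟨k1, k2, u, u1, z, z1, k3, k4⟩
  have ht0τ : t0 < τ := by
    by_contra hc'
    push Not at hc'
    have h2 := hRa τ ⟨k1.le, hc'.trans hta.le⟩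
    have h3 := (le_max_left (Ra + 1) (Bd + 1)).trans hNle
    linarith
  have hτTs : τ < Ts := hltTs τ hτS
  have hlen : τ - t0 ≤ h := by linarith [ht0.1]
  have hsubm : (volume.restrict (Ioc t0 τ) : Measure ℝ) ≤ volume.restrict (Ioc 0 τ) :=
    Measure.restrict_mono (Ioc_subset_Ioc_left ht00.le) le_rfl
  have hFm : MemLp F1 2 (volume.restrict (Ioc t0 τ)) :=
    (hFH τ k2).memLp.mono_measure hsubm
  have hΦτ : ∀ t ∈ Icc 0 τ, ‖F t‖ ≤ Φ := fun t ht => hΦ t ⟨ht.1, ht.2.trans k2⟩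
  have est1 := he1 H K W m C c ν τ F F1 u u1 z z1 Φ Fr Un hν k1 (hFH τ k2) k3 hΦ0 hΦτ t0
    ⟨ht00.le, ht0τ.le⟩
  have est2 := he2 H K W m C c ν τ F F1 u u1 z z1 Fr Un hν k1 (hFH τ k2) k3 t0
    ⟨ht00.le, ht0τ⟩
  obtain ⟨A0, hA0⟩ := k3.bd
  have hGle' := hGle t0 τ ht00.le ht0τ.le k2
  have hfin := hOd ν t0 τ Φ G A0 (fun s => ‖u1 s‖) (fun s => ‖z1 s‖) (fun s => ‖F1 s‖)
    (fun s => ‖z s‖) hν ht0τ hΦ0 hG0 (fun t => norm_nonneg _) (fun t => norm_nonneg _)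
    (fun t => norm_nonneg _) (fun t => norm_nonneg _) ((k3.u1m.mono_measure hsubm).norm)
    ((k3.z1m.mono_measure hsubm).norm) hFm.norm (ae_mono hsubm hA0)
    ((hzc k3).norm.mono (Icc_subset_Icc_left ht00.le)) hGle'
    (fun t ht => est1 t ht) (by
      filter_upwards [est2] with t ht
      refine ht.trans ?_
      have h3 : 2 / ν * ((τ - t0) * ∫ s in t0..τ, ‖F1 s‖ ^ 2) ≤ 2 / ν * ((τ - t0) * G) := by
        have : 0 ≤ τ - t0 := by linarith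
        gcongr
      linarith) (by
      rw [← q2 t0 ⟨ht00.le, ht0τ.le⟩]
      have h4 : (Φ ^ 2 + (τ - t0) * G) / ν ^ 2 ≤ L' := by
        rw [hL']
        gcongr
        linarith
      have h5 : Real.sqrt (τ - t0) ≤ Real.sqrt h := Real.sqrt_le_sqrt hlen
      have h6 : Real.sqrt h ≤ Real.sqrt h1 := Real.sqrt_le_sqrt hhlt.le
      have h7 : 0 ≤ (Φ ^ 2 + (τ - t0) * G) / ν ^ 2 := by
        have : 0 ≤ τ - t0 := by linarith
        positivity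
      calc (‖zz t0‖ ^ 2 + (Φ ^ 2 + (τ - t0) * G) / ν ^ 2) * Real.sqrt (τ - t0)
          ≤ (‖zz t0‖ ^ 2 + L') * Real.sqrt h := by gcongr
        _ = ‖zz t0‖ ^ 2 * Real.sqrt h + L' * Real.sqrt h := by ring
        _ ≤ ε / 2 * ν ^ (3 / 2 : ℝ) + L' * Real.sqrt h1 := by gcongr
        _ ≤ ε / 2 * ν ^ (3 / 2 : ℝ) + ε / 2 * ν ^ (3 / 2 : ℝ) := by gcongr
        _ = ε * ν ^ (3 / 2 : ℝ) := by ring) τ ⟨ht0τ.le, le_rfl⟩
  rw [← q2 τ ⟨k1.le, le_rfl⟩, ← q2 t0 ⟨ht00.le, ht0τ.le⟩] at hfin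
  have h8 : C7 * (‖zz t0‖ ^ 2 + (Φ ^ 2 + (τ - t0) * G) / ν ^ 2) ≤ Bd := by
    rw [hBd, hL']
    have : τ - t0 ≤ T := by linarith
    gcongr
  have h9 : Bd + 1 ≤ ‖zz τ‖ := (le_max_right _ _).trans hNle
  nlinarith

end Pool.Agent.W795.TQ
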