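import Pool.Agent.H772R2.NSR.PubR

/-!
Public definition: Leray-Hopf solutions.
-/

open MeasureTheory Set
open scoped InnerProductSpace ENNReal ContDiff

namespace Pool.Agent.W795.TQ

open H772R2.NS.Pub

/-- `u` is a Leray-Hopf solution on `[0,T]` of the Navier-Stokes equations in `Ω` with viscosity
`ν`, zero boundary values and force `f(t)` given by `⟨f(t), φ⟩ = (F(t), ∇φ)`; `G = ∇u`:
* `u(t) ∈ V = H¹_{0,σ}(Ω)` with gradient `G(t)` for almost every `t`, and `∇u ∈ L²(0,T; L²)`;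
* the equations hold in the weak sense, integrated in time from `0` to `t`, for every `t ∈ [0,T]`;
* the energy inequality `‖u(t)‖²/2 + ν ∫₀ᵗ ‖∇u‖² ≤ ‖u(0)‖²/2 + ∫₀ᵗ ⟨f, u⟩` holds for every
  `t ∈ [0,T]`. -/
structure IsLerayHopf (Ω : Set R3) (ν T : ℝ) (F : ℝ → L2 Ω Mat) (u : ℝ → L2 Ω R3)
    (G : ℝ → L2 Ω Mat) : Prop where
  meas : AEStronglyMeasurable u (volume.restrict (Ioc 0 T))
  grad : ∀ᵐ t ∂(volume.restrict (Ioc 0 T)), (u t, G t) ∈ H1graph Ω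
  gradL2 : MemLp G 2 (volume.restrict (Ioc 0 T))
  eqn : ∀ φ, IsTest Ω φ → ∀ t ∈ Icc 0 T,
    (∫ x in Ω, ⟪(u t).fn x, φ x⟫_ℝ) - (∫ x in Ω, ⟪(u 0).fn x, φ x⟫_ℝ)
      = ∫ s in (0 : ℝ)..t, rhs ν (u s) (G s) (F s) φ
  energy : ∀ t ∈ Icc 0 T, ‖u t‖ ^ 2 / 2 + ν * (∫ s in (0 : ℝ)..t, ‖G s‖ ^ 2)
    ≤ ‖u 0‖ ^ 2 / 2 + ∫ s in (0 : ℝ)..t, ⟪F s, G s⟫_ℝ

end Pool.Agent.W795.TQ
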