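import Pool.Agent.W795.TQ.DFin
import Pool.Agent.W795.TQ.DPubDef
import Pool.Agent.H772R2.NSG.FinalH

/-!
The criterion for the Navier-Stokes equations with Dirichlet boundary conditions, in terms of the
public definitions.
-/

open MeasureTheory Set Filter Topology
open scoped InnerProductSpace ENNReal ContDiff

namespace Pool.Agent.W795.TQ

open H772R2.NS H772R2.NS.Pub H772R2.NSR H772R2.NSG

theorem str_eqn {Ω : Set E3} (hΩ : IsOpen Ω) {ν T : ℝ} {F : ℝ → L2M Ω} {u u1 : ℝ → L2V Ω}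
    {z z1 : ℝ → L2M Ω} (B : Str (graphW Ω) tensL ν T F u u1 z z1) (φ : E3 → E3)
    (hφ : H772R2.NS.IsTest Ω φ) {t : ℝ} (ht : t ∈ Icc 0 T) :
    (∫ x in (show Set R3 from Ω), ⟪L2.fn (Ω := Ω) (E := R3) (u t) x, (φ : R3 → R3) x⟫_ℝ)
      - (∫ x in (show Set R3 from Ω), ⟪L2.fn (Ω := Ω) (E := R3) (u 0) x, (φ : R3 → R3) x⟫_ℝ)
    = ∫ s in (0 : ℝ)..t, Pub.rhs (Ω := Ω) ν (u s) (z s) (F s) φ := by
  have hm : MeasurableSet Ω := hΩ.measurableSet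
  obtain ⟨p, hp, hp1, hp2⟩ := exists_pair (Ω := Ω) hφ
  have h1 := B.weak p hp t ht
  have e1 := pub_inner (Ω := Ω) (u t) hp1
  have e2 := pub_inner (Ω := Ω) (u 0) hp1
  have h2 : ⟪u t - u 0, p.1⟫_ℝ = ⟪u t, p.1⟫_ℝ - ⟪u 0, p.1⟫_ℝ := inner_sub_left _ _ _
  have e3 : ∫ s in (0 : ℝ)..t, Pub.rhs (Ω := Ω) ν (u s) (z s) (F s) φ
      = ∫ s in (0 : ℝ)..t, ⟪F s - ν • z s + tensL (u s), p.2⟫_ℝ := by
    refine intervalIntegral.integral_congr ?_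
    intro s hs
    rw [uIcc_of_le ht.1] at hs
    have hs' : s ∈ Icc 0 T := ⟨hs.1, hs.2.trans ht.2⟩
    exact pub_rhs hm ν (F s) (B.mem s hs') hp2
  refine (congrArg₂ (· - ·) e1 e2).trans ?_
  refine Eq.trans ?_ e3.symm
  rw [← h1, h2]

/-- A strong solution which agrees with `v`, in terms of the public definition. -/
theorem strong_of_str {Ω : Set E3} (hΩ : IsOpen Ω) {ν T : ℝ} (hT : 0 < T) {F : ℝ → L2M Ω}
    {v u u1 : ℝ → L2V Ω} {z z1 : ℝ → L2M Ω} (B : Str (graphW Ω) tensL ν T F u u1 z z1)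
    (hv : ∀ t ∈ Icc 0 T, v t = u t) : IsStrong (show Set R3 from Ω) ν T F v u1 z z1 := by
  constructor
  · intro t ht
    rw [hv t ht]
    exact mem_pub.mp (B.mem t ht)
  · filter_upwards [B.mem1] with t ht
    exact mem_pub.mp ht
  · refine ⟨B.u1m, fun a b ha hab hb => ?_⟩
    rw [hv a ⟨ha, hab.trans hb⟩, hv b ⟨ha.trans hab, hb⟩]
    exact B.pu a b ha hab hb
  · exact ⟨B.z1m, B.pz⟩
  · exact B.bd
  · intro φ hφ t ht
    have h0 : (0 : ℝ) ∈ Icc 0 T := ⟨le_rfl, hT.le⟩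
    have h1 := str_eqn hΩ B φ ((isTest_iff φ).mp hφ) ht
    rw [hv t ht, hv 0 h0]
    refine h1.trans ?_
    refine intervalIntegral.integral_congr fun s hs => ?_
    rw [uIcc_of_le ht.1] at hs
    rw [hv s ⟨hs.1, hs.2.trans ht.2⟩]

theorem lh_mid {Ω : Set E3} (hΩ : IsOpen Ω) {ν T : ℝ} {F : ℝ → L2M Ω}
    (hF : ContinuousOn F (Icc 0 T)) {u : ℝ → L2V Ω} {z : ℝ → L2M Ω} {C : ℝ}
    (Fr : Frame (graphW Ω) (tensL (Ω := Ω)) C)
    (hmeas : AEStronglyMeasurable u (volume.restrict (Ioc 0 T)))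
    (hmem : ∀ᵐ t ∂(volume.restrict (Ioc 0 T)), (u t, z t) ∈ graphW Ω)
    (hz2 : MemLp z 2 (volume.restrict (Ioc 0 T)))
    (heqn : ∀ φ : E3 → E3, H772R2.NS.IsTest Ω φ → ∀ t ∈ Icc 0 T,
      (∫ x in (show Set R3 from Ω), ⟪L2.fn (Ω := Ω) (E := R3) (u t) x, (φ : R3 → R3) x⟫_ℝ)
        - (∫ x in (show Set R3 from Ω), ⟪L2.fn (Ω := Ω) (E := R3) (u 0) x, (φ : R3 → R3) x⟫_ℝ)
      = ∫ s in (0 : ℝ)..t, Pub.rhs (Ω := Ω) ν (u s) (z s) (F s) φ)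
    (hen : ∀ t ∈ Icc 0 T, ‖u t‖ ^ 2 / 2 + ν * (∫ s in (0 : ℝ)..t, ‖z s‖ ^ 2)
      ≤ ‖u 0‖ ^ 2 / 2 + ∫ s in (0 : ℝ)..t, ⟪F s, z s⟫_ℝ) :
    LH (graphW Ω) (tensL (Ω := Ω)) T (fun _ => ν) F (u 0) u z := by
  have hm : MeasurableSet Ω := hΩ.measurableSet
  have hmm : AEStronglyMeasurable (fun s => tensL (u s)) (volume.restrict (Ioc 0 T)) :=
    aestronglyMeasurable_tensL hm hmeas hz2.aestronglyMeasurable hmem
  have hzn : Integrable (fun s => ‖z s‖ ^ 2) (volume.restrict (Ioc 0 T)) :=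
    (memLp_two_iff_integrable_sq_norm hz2.aestronglyMeasurable).mp hz2
  have hmi : Integrable (fun s => tensL (u s)) (volume.restrict (Ioc 0 T)) := by
    refine (hzn.const_mul C).mono' hmm ?_
    filter_upwards [hmem] with s hs
    exact norm_m_le Fr (p := (u s, z s)) hs
  have hFm : MemLp F 1 (volume.restrict (Ioc 0 T)) := mem_cont hF
  have hFi : Integrable F (volume.restrict (Ioc 0 T)) := hFm.integrable le_rfl
  have hzi : Integrable z (volume.restrict (Ioc 0 T)) := hz2.integrable (by norm_num)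
  have hGi : Integrable (fun s => F s - ν • z s + tensL (u s)) (volume.restrict (Ioc 0 T)) :=
    (hFi.sub (hzi.smul ν)).add hmi
  refine ⟨rfl, hmeas, hmm, hmem, hz2, hzn.const_mul ν, ?_, ?_⟩
  · intro p hp t ht
    have hGt : Integrable (fun s => F s - ν • z s + tensL (u s)) (volume.restrict (Ioc 0 t)) :=
      hGi.mono_measure (Measure.restrict_mono (Ioc_subset_Ioc_right ht.2) le_rfl)
    set I : L2M Ω := ∫ s in (0 : ℝ)..t, (F s - ν • z s + tensL (u s)) with hI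
    have hint : ∀ q : L2V Ω × L2M Ω, ∫ s in (0 : ℝ)..t, ⟪F s - ν • z s + tensL (u s), q.2⟫_ℝ
        = ⟪I, q.2⟫_ℝ := by
      intro q
      rw [hI, intervalIntegral.integral_of_le ht.1, intervalIntegral.integral_of_le ht.1]
      have := integral_inner (𝕜 := ℝ) hGt q.2
      rw [real_inner_comm, ← this]
      exact integral_congr_ae (Eventually.of_forall fun s => real_inner_comm _ _)
    have key := graphW_induction (fun q : L2V Ω × L2M Ω => ⟪u t - u 0, q.1⟫_ℝ - ⟪I, q.2⟫_ℝ)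
      (by fun_prop) (by
      rintro q ⟨φ, k1, k2, k3⟩
      have e := heqn φ k1 t ht
      have e1 := pub_inner (Ω := Ω) (u t) k2
      have e2 := pub_inner (Ω := Ω) (u 0) k2
      have e3 : ∫ s in (0 : ℝ)..t, Pub.rhs (Ω := Ω) ν (u s) (z s) (F s) φ
          = ∫ s in (0 : ℝ)..t, ⟪F s - ν • z s + tensL (u s), q.2⟫_ℝ := by
        rw [intervalIntegral.integral_of_le ht.1, intervalIntegral.integral_of_le ht.1]
        refine integral_congr_ae ?_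
        filter_upwards [ae_mono (Measure.restrict_mono (Ioc_subset_Ioc_right ht.2) le_rfl) hmem]
          with s hs
        exact pub_rhs hm ν (F s) hs k3
      have h2 : ⟪u t - u 0, q.1⟫_ℝ = ⟪u t, q.1⟫_ℝ - ⟪u 0, q.1⟫_ℝ := inner_sub_left _ _ _
      have e' := ((congrArg₂ (· - ·) e1 e2).symm.trans e).trans (e3.trans (hint q))
      show ⟪u t - u 0, q.1⟫_ℝ - ⟪I, q.2⟫_ℝ = 0
      rw [h2]
      exact sub_eq_zero.mpr e') hp
    have key' : ⟪u t - u 0, p.1⟫_ℝ = ⟪I, p.2⟫_ℝ := sub_eq_zero.mp key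
    rw [key', ← hint p]
  · intro t ht
    have h1 := hen t ht
    rw [intervalIntegral.integral_const_mul]
    exact h1

/-- The criterion, internal form. -/
theorem dmid (hit : S_iter) (hode : S_ode) (htp : S_dtp) (he1 : S_est1) (he2 : S_est2)
    (hloc : S_loc) (huni : S_uni) (hun : S_univ) : ∃ k : ℝ, 0 < k ∧
    ∀ (Ω : Set E3), IsOpen Ω → Bornology.IsBounded Ω → ∀ (ν T : ℝ), 0 < ν → 0 < T →
    ∀ (F F' : ℝ → L2M Ω), MemLp F' 2 (volume.restrict (Ioc 0 T)) →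
    (∀ a b, 0 ≤ a → a ≤ b → b ≤ T → F b - F a = ∫ s in a..b, F' s) →
    ∀ (u : ℝ → L2V Ω) (z : ℝ → L2M Ω), AEStronglyMeasurable u (volume.restrict (Ioc 0 T)) →
    (∀ᵐ t ∂(volume.restrict (Ioc 0 T)), (u t, z t) ∈ graphW Ω) →
    MemLp z 2 (volume.restrict (Ioc 0 T)) →
    (∀ φ : E3 → E3, H772R2.NS.IsTest Ω φ → ∀ t ∈ Icc 0 T,
      (∫ x in (show Set R3 from Ω), ⟪L2.fn (Ω := Ω) (E := R3) (u t) x, (φ : R3 → R3) x⟫_ℝ)
        - (∫ x in (show Set R3 from Ω), ⟪L2.fn (Ω := Ω) (E := R3) (u 0) x, (φ : R3 → R3) x⟫_ℝ)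
      = ∫ s in (0 : ℝ)..t, Pub.rhs (Ω := Ω) ν (u s) (z s) (F s) φ) →
    (∀ t ∈ Icc 0 T, ‖u t‖ ^ 2 / 2 + ν * (∫ s in (0 : ℝ)..t, ‖z s‖ ^ 2)
      ≤ ‖u 0‖ ^ 2 / 2 + ∫ s in (0 : ℝ)..t, ⟪F s, z s⟫_ℝ) →
    ∀ z0 : L2M Ω, (u 0, z0) ∈ graphW Ω →
    (∃ h : L2V Ω, ∀ φ : E3 → E3, H772R2.NS.IsTest Ω φ →
      Pub.rhs (Ω := Ω) ν (u 0) z0 (F 0) φ
        = ∫ x in (show Set R3 from Ω), ⟪L2.fn (Ω := Ω) (E := R3) h x, (φ : R3 → R3) x⟫_ℝ) →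
    (∃ u' G1 G', IsStrong (show Set R3 from Ω) ν T F u u' G1 G') ∨
    ∃ τ ∈ Ioc 0 T, (∀ t ∈ Ioo 0 τ, ∃ u' G1 G', IsStrong (show Set R3 from Ω) ν t F u u' G1 G') ∧
      ∀ (U : L2V Ω) (h0 : ℝ), 0 < h0 → h0 ≤ τ → ∃ h : ℝ, 0 < h ∧ h ≤ h0 ∧
        k * ν ^ (5 / 2 : ℝ) * h ^ (3 / 2 : ℝ) < ∫ t in (τ - h)..τ, ‖u t - U‖ ^ 2 := by
  obtain ⟨c, hc, hU⟩ := hun
  obtain ⟨k, hk, hk'⟩ := dcrit hit hode htp he1 he2 hloc huni c hc
  refine ⟨k, hk, ?_⟩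
  intro Ω hΩ hb ν T hν hT F F' hF1 hF u z hmeas hmem hz2 heqn hen z0 h0 hg
  obtain ⟨C, Fr⟩ := exists_frame hΩ hb
  obtain ⟨g0, hg0⟩ := hg
  have hm : MeasurableSet Ω := hΩ.measurableSet
  have hcomp : ∀ p ∈ graphW Ω, ⟪F 0 - ν • z0 + tensL (u 0), p.2⟫_ℝ = ⟪g0, p.1⟫_ℝ := by
    refine compat_ext ?_
    rintro p ⟨φ, k1, k2, k3⟩
    rw [← pub_rhs hm ν (F 0) h0 k3, ← pub_inner (Ω := Ω) g0 k2]
    exact hg0 φ k1
  have hFc : ContinuousOn F (Icc 0 T) := prim_cont hF1 hF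
  have hLH := lh_mid hΩ hFc Fr hmeas hmem hz2 heqn hen
  rcases hk' (L2V Ω) (L2M Ω) (graphW Ω) tensL C ν T F F' (u 0) g0 z0 u z Fr (hU _ hΩ)
    (rellich_W hΩ hb) hν hT ⟨hF1, hF⟩ h0 hcomp hLH with ⟨w, w1, y, y1, k1, k2⟩ | ⟨τ, hτ, k1, k2⟩
  · exact Or.inl ⟨w1, y, y1, strong_of_str hΩ hT k1 k2⟩
  · refine Or.inr ⟨τ, hτ, fun t ht => ?_, k2⟩
    obtain ⟨w, w1, y, y1, k3, k4⟩ := k1 t ht
    exact ⟨w1, y, y1, strong_of_str hΩ ht.1 k3 k4⟩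

end Pool.Agent.W795.TQ
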