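import Mathlib

/-!
The time modulus of continuity at a singular time: a real-variable lemma for the regularity up to
the final time.
-/

open MeasureTheory Set

namespace Pool.Agent.W795.TQ

/-- The a priori bound of `Y = ‖∇u‖` on a short time interval from the two integral inequalities
for `a = ‖∂ₜu‖`, `w = ‖∇∂ₜu‖`, `g = ‖F'‖`. -/
def S_ode : Prop :=
  ∀ c : ℝ, 0 < c → ∃ ε C7 : ℝ, 0 < ε ∧ 0 < C7 ∧
    ∀ (ν t0 T Φ G A0 : ℝ) (a w g Y : ℝ → ℝ), 0 < ν → t0 < T → 0 ≤ Φ → 0 ≤ G →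
      (∀ t, 0 ≤ a t) → (∀ t, 0 ≤ w t) → (∀ t, 0 ≤ g t) → (∀ t, 0 ≤ Y t) →
      MemLp a 2 (volume.restrict (Ioc t0 T)) → MemLp w 2 (volume.restrict (Ioc t0 T)) →
      MemLp g 2 (volume.restrict (Ioc t0 T)) →
      (∀ᵐ t ∂(volume.restrict (Ioc t0 T)), a t ≤ A0) →
      ContinuousOn Y (Icc t0 T) → ∫ s in t0..T, g s ^ 2 ≤ G →
      (∀ t ∈ Icc t0 T, 2 * (∫ s in t0..t, a s ^ 2) + ν * Y t ^ 2 ≤ ν * Y t0 ^ 2
        + 2 * c * (∫ s in t0..t, Y s ^ 2 * (Real.sqrt (a s) * Real.sqrt (w s)))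
        + 2 * Φ * (Y t + Y t0) + 2 * ∫ s in t0..t, g s * Y s) →
      (∀ᵐ t ∂(volume.restrict (Ioc t0 T)),
        (t - t0) * a t ^ 2 + ν * (∫ s in t0..t, (s - t0) * w s ^ 2)
          ≤ (∫ s in t0..t, a s ^ 2) + 2 / ν * ((T - t0) * G)
            + 14 * c ^ 4 / ν ^ 3 * ∫ s in t0..t, (s - t0) * (a s ^ 2 * Y s ^ 4)) →
      (Y t0 ^ 2 + (Φ ^ 2 + (T - t0) * G) / ν ^ 2) * Real.sqrt (T - t0) ≤ ε * ν ^ (3 / 2 : ℝ) →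
      ∀ t ∈ Icc t0 T, Y t ^ 2 ≤ C7 * (Y t0 ^ 2 + (Φ ^ 2 + (T - t0) * G) / ν ^ 2)

end Pool.Agent.W795.TQ
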