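import Pool.Agent.W795.TQ.Stm
import Pool.Agent.W795.TQ.OStm
import Pool.Agent.H772R2.NS.Space3
import Pool.Agent.H772R2.NSG.Rel

/-!
The time modulus of continuity at a singular time: the statements for the Navier-Stokes equations
with Dirichlet boundary conditions, in the abstract frame of `H772R2`.
-/

open MeasureTheory Set
open scoped InnerProductSpace

namespace Pool.Agent.W795.TQ

open H772R2.NSR (Frame)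
open H772R2.NS (graphW tensL)

/-- The bounds with a constant which does not depend on the domain. -/
structure Univ {H K : Type} [NormedAddCommGroup H] [InnerProductSpace ℝ H]
    [NormedAddCommGroup K] [InnerProductSpace ℝ K] (W : Submodule ℝ (H × K)) (m : H → K)
    (c : ℝ) : Prop where
  c0 : 0 < c
  quart : ∀ p ∈ W, ‖m p.1‖ ≤ c * (Real.sqrt ‖p.1‖ * Real.sqrt ‖p.2‖ ^ 3)
  tri : ∀ p ∈ W, ∀ q ∈ W,
    |⟪m p.1, q.2⟫_ℝ| ≤ c * (‖p.2‖ ^ 2 * (Real.sqrt ‖q.1‖ * Real.sqrt ‖q.2‖))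

/-- The universal bounds for the graph of the gradient on divergence free fields. -/
def S_univ : Prop := ∃ c : ℝ, 0 < c ∧ ∀ Ω : Set H772R2.NS.E3, IsOpen Ω →
  Univ (graphW Ω) (tensL (Ω := Ω)) c

/-- Strong solutions on `[0, T]`. -/
structure Str {H K : Type} [NormedAddCommGroup H] [InnerProductSpace ℝ H]
    [NormedAddCommGroup K] [InnerProductSpace ℝ K] (W : Submodule ℝ (H × K)) (m : H → K)
    (ν T : ℝ) (F : ℝ → K) (u u1 : ℝ → H) (z z1 : ℝ → K) : Prop where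
  mem : ∀ t ∈ Icc 0 T, (u t, z t) ∈ W
  mem1 : ∀ᵐ s ∂(volume.restrict (Ioc 0 T)), (u1 s, z1 s) ∈ W
  bd : ∃ c, ∀ᵐ s ∂(volume.restrict (Ioc 0 T)), ‖u1 s‖ ≤ c
  u1m : MemLp u1 2 (volume.restrict (Ioc 0 T))
  z1m : MemLp z1 2 (volume.restrict (Ioc 0 T))
  pu : ∀ a b, 0 ≤ a → a ≤ b → b ≤ T → u b - u a = ∫ s in a..b, u1 s
  pz : ∀ a b, 0 ≤ a → a ≤ b → b ≤ T → z b - z a = ∫ s in a..b, z1 s
  weak : ∀ p ∈ W, ∀ t ∈ Icc 0 T, ⟪u t - u 0, p.1⟫_ℝ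
    = ∫ s in (0 : ℝ)..t, ⟪F s - ν • z s + m (u s), p.2⟫_ℝ
  energy : ∀ t ∈ Icc 0 T, ‖u t‖ ^ 2 / 2 + ν * (∫ s in (0 : ℝ)..t, ‖z s‖ ^ 2)
    = ‖u 0‖ ^ 2 / 2 + ∫ s in (0 : ℝ)..t, ⟪F s, z s⟫_ℝ

/-- The force is in `H¹(0,T; K)`. -/
structure FH {K : Type} [NormedAddCommGroup K] [InnerProductSpace ℝ K] (T : ℝ) (F F1 : ℝ → K) :
    Prop where
  memLp : MemLp F1 2 (volume.restrict (Ioc 0 T))
  prim : ∀ a b, 0 ≤ a → a ≤ b → b ≤ T → F b - F a = ∫ s in a..b, F1 s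

/-- The two-point inequality for strong solutions. -/
def S_dtp : Prop := ∀ c : ℝ, 0 < c → ∃ C0 : ℝ, 0 ≤ C0 ∧
  ∀ (H K : Type) [NormedAddCommGroup H] [InnerProductSpace ℝ H] [CompleteSpace H]
    [NormedAddCommGroup K] [InnerProductSpace ℝ K] [CompleteSpace K]
    (W : Submodule ℝ (H × K)) (m : H → K) (C ν T : ℝ) (F : ℝ → K) (u u1 : ℝ → H) (z z1 : ℝ → K)
    (Φ : ℝ) (U : H), Frame W m C → Univ W m c → 0 < ν → 0 < T → ContinuousOn F (Icc 0 T) →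
    Str W m ν T F u u1 z z1 → 0 ≤ Φ → (∀ t ∈ Icc 0 T, ‖F t‖ ≤ Φ) →
    ∀ t1 ∈ Icc 0 T, ∀ a ∈ Icc 0 T, ∀ b ∈ Icc 0 T, a ≤ b →
      ∫ s in a..b, ‖z s‖ ^ 2 / ν ^ (3 / 2 : ℝ) ≤
        C0 * (∫ s in a..b, (‖z t1‖ ^ 2 / ν ^ (3 / 2 : ℝ) + Φ ^ 2 / ν ^ (7 / 2 : ℝ)
          + ((‖z t1‖ ^ 2 / ν ^ (3 / 2 : ℝ)) ^ 2 + Φ ^ 2 / ν ^ (7 / 2 : ℝ))
            * ((‖u s - U‖ / ν ^ (5 / 4 : ℝ)) ^ 2 + (‖u t1 - U‖ / ν ^ (5 / 4 : ℝ)) ^ 2)))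
        + C0 * ((‖u a - U‖ / ν ^ (5 / 4 : ℝ) + ‖u b - U‖ / ν ^ (5 / 4 : ℝ))
          * (‖u a - U‖ / ν ^ (5 / 4 : ℝ) + ‖u b - U‖ / ν ^ (5 / 4 : ℝ)
            + ‖u t1 - U‖ / ν ^ (5 / 4 : ℝ)))

/-- The equation tested with `∂ₜu`. -/
def S_est1 : Prop := ∀ (H K : Type) [NormedAddCommGroup H] [InnerProductSpace ℝ H]
    [CompleteSpace H] [NormedAddCommGroup K] [InnerProductSpace ℝ K] [CompleteSpace K]
    (W : Submodule ℝ (H × K)) (m : H → K) (C c ν T : ℝ) (F F1 : ℝ → K) (u u1 : ℝ → H)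
    (z z1 : ℝ → K) (Φ : ℝ), Frame W m C → Univ W m c → 0 < ν → 0 < T → FH T F F1 →
    Str W m ν T F u u1 z z1 → 0 ≤ Φ → (∀ t ∈ Icc 0 T, ‖F t‖ ≤ Φ) →
    ∀ t0 ∈ Icc 0 T, ∀ t ∈ Icc t0 T,
      2 * (∫ s in t0..t, ‖u1 s‖ ^ 2) + ν * ‖z t‖ ^ 2 ≤ ν * ‖z t0‖ ^ 2
        + 2 * c * (∫ s in t0..t, ‖z s‖ ^ 2 * (Real.sqrt ‖u1 s‖ * Real.sqrt ‖z1 s‖))
        + 2 * Φ * (‖z t‖ + ‖z t0‖) + 2 * ∫ s in t0..t, ‖F1 s‖ * ‖z s‖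

/-- The differentiated equation tested with `(t - t0) ∂ₜu`. -/
def S_est2 : Prop := ∀ (H K : Type) [NormedAddCommGroup H] [InnerProductSpace ℝ H]
    [CompleteSpace H] [NormedAddCommGroup K] [InnerProductSpace ℝ K] [CompleteSpace K]
    (W : Submodule ℝ (H × K)) (m : H → K) (C c ν T : ℝ) (F F1 : ℝ → K) (u u1 : ℝ → H)
    (z z1 : ℝ → K), Frame W m C → Univ W m c → 0 < ν → 0 < T → FH T F F1 →
    Str W m ν T F u u1 z z1 → ∀ t0 ∈ Ico 0 T,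
    ∀ᵐ t ∂(volume.restrict (Ioc t0 T)),
      (t - t0) * ‖u1 t‖ ^ 2 + ν * (∫ s in t0..t, (s - t0) * ‖z1 s‖ ^ 2)
        ≤ (∫ s in t0..t, ‖u1 s‖ ^ 2) + 2 / ν * ((T - t0) * ∫ s in t0..T, ‖F1 s‖ ^ 2)
          + 14 * c ^ 4 / ν ^ 3 * ∫ s in t0..t, (s - t0) * (‖u1 s‖ ^ 2 * ‖z s‖ ^ 4)

/-- Local existence of strong solutions, up to the first time at which `‖∇u‖ = N`. -/
def S_loc : Prop := ∀ (H K : Type) [NormedAddCommGroup H] [InnerProductSpace ℝ H]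
    [CompleteSpace H] [NormedAddCommGroup K] [InnerProductSpace ℝ K] [CompleteSpace K]
    (W : Submodule ℝ (H × K)) (m : H → K) (C ν T : ℝ) (F F1 : ℝ → K) (x0 g0 : H) (z0 : K)
    (N : ℝ), Frame W m C → (∀ R : ℝ, TotallyBounded {v : H | ∃ z, (v, z) ∈ W ∧ ‖z‖ ≤ R}) →
    0 < ν → 0 < T → FH T F F1 → (x0, z0) ∈ W →
    (∀ p ∈ W, ⟪F 0 - ν • z0 + m x0, p.2⟫_ℝ = ⟪g0, p.1⟫_ℝ) → ‖z0‖ < N →
    ∃ (τ : ℝ) (u u1 : ℝ → H) (z z1 : ℝ → K), 0 < τ ∧ τ ≤ T ∧ Str W m ν τ F u u1 z z1 ∧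
      u 0 = x0 ∧ (τ = T ∨ N ≤ ‖z τ‖)

/-- Leray-Hopf solutions coincide with strong solutions. -/
def S_uni : Prop := ∀ (H K : Type) [NormedAddCommGroup H] [InnerProductSpace ℝ H]
    [CompleteSpace H] [NormedAddCommGroup K] [InnerProductSpace ℝ K] [CompleteSpace K]
    (W : Submodule ℝ (H × K)) (m : H → K) (C ν T τ : ℝ) (F : ℝ → K) (x0 : H)
    (v u u1 : ℝ → H) (y z z1 : ℝ → K), Frame W m C → 0 < ν → 0 < τ → τ ≤ T →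
    ContinuousOn F (Icc 0 T) → H772R2.NSG.LH W m T (fun _ => ν) F x0 v y →
    Str W m ν τ F u u1 z z1 → u 0 = x0 →
    (∀ t ∈ Icc 0 τ, v t = u t) ∧ ∀ᵐ s ∂(volume.restrict (Ioc 0 τ)), y s = z s

end Pool.Agent.W795.TQ
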