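import Pool.Agent.W795.TQ.PTp

/-!
The criterion for smooth periodic solutions.
-/

open MeasureTheory Set Filter Topology H459R3.NS
open scoped ContDiff

namespace Pool.Agent.W795.TQ

/-- The criterion with viscosity `1`. -/
theorem crit_one (hit : S_iter) (hbd : S_bd) (hcr : S_cross) (hmean : S_mean) (hler : S_leray) :
    ∃ k : ℝ, 0 < k ∧ ∀ (T : ℝ) (u : ℝ → V → V) (p : ℝ → V → ℝ) (U : V → V), IsSol 1 T u p →
      L2F U → ∀ h0 : ℝ, 0 < h0 → h0 ≤ T →
      (∀ h : ℝ, 0 < h → h ≤ h0 →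
        ∫ t in (T - h)..T, energy (fun x => u t x - U x) ≤ k ^ 2 * h ^ (3 / 2 : ℝ)) →
      ∃ M, ∀ t ∈ Ico 0 T, ∀ x i, |u t x i| ≤ M := by
  obtain ⟨C0, hC0, hTP⟩ := S_tp hbd hcr hmean
  obtain ⟨C1, hC1, hIt⟩ := hit C0 hC0
  obtain ⟨C4, hC4, hLe⟩ := hler
  set k : ℝ := min 1 (1 / (C4 * C1 ^ 2 + 1)) with hk
  have hk0 : 0 < k := lt_min one_pos (by positivity)
  have hk1 : k ≤ 1 := min_le_left _ _
  have hk2 : C4 * C1 ^ 2 * k ^ 4 < 1 := by
    have h1 : k ≤ 1 / (C4 * C1 ^ 2 + 1) := min_le_right _ _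
    have h2 : k ^ 4 ≤ k := by
      calc k ^ 4 = k ^ 3 * k := by ring
        _ ≤ 1 * k := mul_le_mul_of_nonneg_right (pow_le_one₀ hk0.le hk1) hk0.le
        _ = k := one_mul k
    have h3 : k * (C4 * C1 ^ 2 + 1) ≤ 1 := by
      rw [le_div_iff₀ (by positivity)] at h1
      exact h1
    have h4 : C4 * C1 ^ 2 * k ^ 4 ≤ C4 * C1 ^ 2 * k := mul_le_mul_of_nonneg_left h2 (by positivity)
    nlinarith
  refine ⟨k, hk0, fun T u p U h hU h0 hh0 hhT hyp => ?_⟩
  have hT : 0 < T := hh0.trans_le hhT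
  obtain ⟨L, hL0, hL⟩ := hTP T u p U h hU
  have hsub : Ioo (T - h0) T ⊆ Ioo 0 T := fun s hs => ⟨by linarith [hs.1], hs.2⟩
  have hsq : ∀ t, Real.sqrt (dsq u U t) ^ 2 = dsq u U t := fun t => Real.sq_sqrt (dsq_nonneg _ _ _)
  have iy : IntegrableOn (fun t => enstrophy (u t)) (Ioo (T - h0) T) :=
    (integrable_enstrophy h hT).mono_set hsub
  obtain ⟨h1, hh1, _, hh1', hI⟩ := hIt k L T h0 (fun t => enstrophy (u t))
    (fun t => Real.sqrt (dsq u U t)) hk0 hk1 hL0 hh0 (fun t => enstrophy_nonneg _)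
    (fun t => Real.sqrt_nonneg _) iy
    (by
      simp_rw [hsq]
      exact (integrable_dsq h hU).mono_set hsub)
    (hL h0 hh0 hhT) (fun h' hh' hh'' => by
      simp_rw [hsq]
      exact hyp h' hh' hh'') 1 one_pos
  -- a good time
  have hsub1 : Ioo (T - h1) T ⊆ Ioo (T - h0) T := fun s hs => ⟨by linarith [hs.1], hs.2⟩
  obtain ⟨t0, ht0, hle⟩ := exists_le_setAverage (μ := volume) (s := Ioo (T - h1) T)
    (f := fun t => enstrophy (u t)) (by simp [hh1]) (by simp) (iy.mono_set hsub1)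
  have hav : ⨍ t in Ioo (T - h1) T, enstrophy (u t) = h1⁻¹ * ∫ t in (T - h1)..T, enstrophy (u t) := by
    rw [setAverage_eq, intervalIntegral.integral_of_le (by linarith), integral_Ioc_eq_integral_Ioo,
      Measure.real, Real.volume_Ioo, sub_sub_cancel, ENNReal.toReal_ofReal hh1.le, smul_eq_mul]
  rw [hav] at hle
  have hs0 : 0 < Real.sqrt h1 := Real.sqrt_pos.2 hh1
  have hs2 : Real.sqrt h1 ^ 2 = h1 := Real.sq_sqrt hh1.le
  have hy : enstrophy (u t0) ≤ C1 * k ^ 2 / Real.sqrt h1 := by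
    refine hle.trans ?_
    calc h1⁻¹ * ∫ t in (T - h1)..T, enstrophy (u t) ≤ h1⁻¹ * (C1 * (k ^ 2 * Real.sqrt h1)) := by
          gcongr
      _ = C1 * k ^ 2 / Real.sqrt h1 := by
          nth_rewrite 1 [← hs2]
          field_simp
  refine hLe T u p h t0 (hsub (hsub1 ht0)) ?_
  have hy2 : enstrophy (u t0) ^ 2 ≤ C1 ^ 2 * k ^ 4 / h1 := by
    calc enstrophy (u t0) ^ 2 ≤ (C1 * k ^ 2 / Real.sqrt h1) ^ 2 :=
          pow_le_pow_left₀ (enstrophy_nonneg _) hy 2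
      _ = C1 ^ 2 * k ^ 4 / h1 := by
          rw [div_pow, hs2]
          ring
  calc C4 * enstrophy (u t0) ^ 2 * (T - t0) ≤ C4 * (C1 ^ 2 * k ^ 4 / h1) * h1 := by
        gcongr
        · linarith [ht0.2]
        · linarith [ht0.1]
    _ = C4 * C1 ^ 2 * k ^ 4 := by field_simp
    _ < 1 := hk2

/-- The criterion. -/
theorem crit (hit : S_iter) (hbd : S_bd) (hcr : S_cross) (hmean : S_mean) (hler : S_leray)
    (hsc : S_scale) :
    ∃ k : ℝ, 0 < k ∧ ∀ (ν T : ℝ) (u : ℝ → V → V) (p : ℝ → V → ℝ) (U : V → V) (h0 : ℝ), 0 < ν →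
      IsSol ν T u p → (∀ i, MemLp (fun x => U x i) 2 (volume.restrict cube)) → 0 < h0 → h0 ≤ T →
      (∀ h : ℝ, 0 < h → h ≤ h0 →
        ∫ t in (T - h)..T, energy (fun x => u t x - U x) ≤ k * ν ^ (5 / 2 : ℝ) * h ^ (3 / 2 : ℝ)) →
      ∃ M, ∀ t ∈ Ico 0 T, ∀ x i, |u t x i| ≤ M := by
  obtain ⟨k, hk0, hk⟩ := crit_one hit hbd hcr hmean hler
  refine ⟨k ^ 2, by positivity, fun ν T u p U h0 hν h hU hh0 hhT hyp => ?_⟩
  set v : ℝ → V → V := fun s x => ν⁻¹ • u (s / ν) x with hv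
  have hs := hsc ν T u p hν h
  obtain ⟨M, hM⟩ := hk (ν * T) v _ (fun x => ν⁻¹ • U x) hs (fun i => by
      have := (hU i).const_mul ν⁻¹
      exact this) (ν * h0) (by positivity) (by gcongr) (fun h' hh' hh'' => by
    have h1 : h' / ν ≤ h0 := by
      rw [div_le_iff₀ hν]
      linarith
    have key := hyp (h' / ν) (by positivity) h1
    have e1 : ∀ t, energy (fun x => v t x - ν⁻¹ • U x)
        = ν⁻¹ ^ 2 * energy (fun x => u (t / ν) x - U x) := by
      intro t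
      unfold energy
      rw [Finset.mul_sum]
      refine Finset.sum_congr rfl fun i _ => ?_
      rw [← integral_const_mul]
      refine integral_congr_ae (Eventually.of_forall fun x => ?_)
      simp only [hv, Pi.sub_apply, Pi.smul_apply, smul_eq_mul]
      ring
    simp_rw [e1]
    rw [intervalIntegral.integral_const_mul,
      intervalIntegral.integral_comp_div (fun t => energy (fun x => u t x - U x)) hν.ne', smul_eq_mul]
    have e2 : (ν * T - h') / ν = T - h' / ν := by field_simp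
    have e3 : ν * T / ν = T := by field_simp
    rw [e2, e3]
    have e4 : (h' / ν) ^ (3 / 2 : ℝ) = h' ^ (3 / 2 : ℝ) / ν ^ (3 / 2 : ℝ) :=
      Real.div_rpow hh'.le hν.le _
    rw [e4] at key
    have e5 : ν ^ (5 / 2 : ℝ) = ν * ν ^ (3 / 2 : ℝ) := by
      have : (5 / 2 : ℝ) = 1 + 3 / 2 := by norm_num
      rw [this, Real.rpow_add hν, Real.rpow_one]
    rw [e5] at key
    have hp : 0 < ν ^ (3 / 2 : ℝ) := Real.rpow_pos_of_pos hν _
    calc ν⁻¹ ^ 2 * (ν * ∫ t in T - h' / ν..T, energy (fun x => u t x - U x))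
        ≤ ν⁻¹ ^ 2 * (ν * (k ^ 2 * (ν * ν ^ (3 / 2 : ℝ)) * (h' ^ (3 / 2 : ℝ) / ν ^ (3 / 2 : ℝ)))) := by
          gcongr
      _ = k ^ 2 * h' ^ (3 / 2 : ℝ) := by
          field_simp)
  refine ⟨ν * M, fun t ht x i => ?_⟩
  have h1 := hM (ν * t) ⟨by have := ht.1; positivity, by have := ht.2; gcongr⟩ x i
  simp only [hv, Pi.smul_apply, smul_eq_mul] at h1
  have e : ν * t / ν = t := by field_simp
  rw [e, abs_mul, abs_of_pos (inv_pos.2 hν), inv_mul_le_iff₀ hν] at h1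
  exact h1

end Pool.Agent.W795.TQ
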