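import Pool.Agent.W795.TQ.Stm
import Pool.Agent.H459R3.NS.Main

/-!
The time modulus of continuity at a singular time: the statements for smooth periodic solutions.
-/

open MeasureTheory Set H459R3.NS

namespace Pool.Agent.W795.TQ

/-- `∑ ∫ aⱼ ∂ⱼbᵢ cᵢ` over the period cell -/
noncomputable def tr (a b c : V → V) : ℝ :=
  ∑ i, ∑ j, ∫ x in cube, a x j * (pd j (fun y => b y i) x * c x i)

/-- `∑ ∫ aᵢ bᵢ` over the period cell -/
noncomputable def ip (a b : V → V) : ℝ := ∑ i, ∫ x in cube, a x i * b x i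

/-- `∑ ∫ ∂ⱼaᵢ ∂ⱼbᵢ` over the period cell -/
noncomputable def gip (a b : V → V) : ℝ :=
  ∑ i, ∑ j, ∫ x in cube, pd j (fun y => a y i) x * pd j (fun y => b y i) x

/-- `div v = 0` -/
def DivF (v : V → V) : Prop := ∀ x, ∑ i, pd i (fun y => v y i) x = 0

/-- The bound of the trilinear term. -/
def S_bd : Prop := ∃ C : ℝ, 0 ≤ C ∧ ∀ (u v : V → V) (m : ℝ),
  (∀ i, SP fun y => u y i) → (∀ i, SP fun y => v y i) → DivF u → DivF v →
  (∀ i, ∫ x in cube, u x i = ∫ x in cube, v x i) → (∀ i, |∫ x in cube, v x i| ≤ m) →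
  |tr u v u| ≤ 1 / 4 * enstrophy u
    + C * (enstrophy v + (enstrophy v ^ 2 + m ^ 2) * energy (fun x => u x - v x))

/-- The means of a periodic solution are constant. -/
def S_mean : Prop := ∀ (ν T : ℝ) (u : ℝ → V → V) (p : ℝ → V → ℝ), IsSol ν T u p →
  ∀ t ∈ Ico 0 T, ∀ i, ∫ x in cube, u t x i = ∫ x in cube, u 0 x i

/-- The energy identity minus the equation tested with a fixed field `v`. -/
def S_cross : Prop := ∀ (ν T : ℝ) (u : ℝ → V → V) (p : ℝ → V → ℝ) (v : V → V), IsSol ν T u p →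
  (∀ i, SP fun y => v y i) → DivF v →
  ContinuousOn (fun s => gip (u s) v) (Ico 0 T) ∧
  ContinuousOn (fun s => tr (u s) v (u s)) (Ico 0 T) ∧
  ∀ a b : ℝ, 0 < a → a ≤ b → b < T →
    ν * ∫ s in a..b, enstrophy (u s) = (∫ s in a..b, (ν * gip (u s) v - tr (u s) v (u s)))
      + ((energy (u a) / 2 - ip (u a) v) - (energy (u b) / 2 - ip (u b) v))

/-- Leray's lower bound of the enstrophy at a singular time (`ν = 1`). -/
def S_leray : Prop := ∃ C : ℝ, 0 < C ∧ ∀ (T : ℝ) (u : ℝ → V → V) (p : ℝ → V → ℝ),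
  IsSol 1 T u p → ∀ t0 ∈ Ioo 0 T, C * enstrophy (u t0) ^ 2 * (T - t0) < 1 →
  ∃ M, ∀ t ∈ Ico 0 T, ∀ x i, |u t x i| ≤ M

/-- The change of the time scale. -/
def S_scale : Prop := ∀ (ν T : ℝ) (u : ℝ → V → V) (p : ℝ → V → ℝ), 0 < ν → IsSol ν T u p →
  IsSol 1 (ν * T) (fun s x => ν⁻¹ • u (s / ν) x) (fun s x => ν⁻¹ ^ 2 * p (s / ν) x)

end Pool.Agent.W795.TQ
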