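import Pool.Agent.W795.TQ.PStm
import Pool.Agent.H459R3.NS.High2

/-!
The two-point inequality for smooth periodic solutions.
-/

open MeasureTheory Set Filter Topology H459R3.NS
open scoped ContDiff

namespace Pool.Agent.W795.TQ

/-- The square of the distance to `U` in `L²`. -/
noncomputable def dsq (u : ℝ → V → V) (U : V → V) (t : ℝ) : ℝ := energy (fun x => u t x - U x)

theorem dsq_nonneg (u : ℝ → V → V) (U : V → V) (t : ℝ) : 0 ≤ dsq u U t := energy_nonneg _

/-- `U` is square integrable over the period cell. -/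
def L2F (U : V → V) : Prop := ∀ i, MemLp (fun x => U x i) 2 (volume.restrict cube)

section

variable {T : ℝ} {u : ℝ → V → V} {p : ℝ → V → ℝ} {U : V → V}

theorem memLp_c {f : V → ℝ} (hf : Continuous f) : MemLp f 2 (volume.restrict cube) := by
  have := cube_finite
  obtain ⟨C, hC⟩ := (isCompact_Icc (a := (0 : V)) (b := 1)).exists_bound_of_continuousOn
    hf.continuousOn
  refine MemLp.of_bound hf.aestronglyMeasurable C ?_
  exact (ae_restrict_iff' measurableSet_Icc).2 (Eventually.of_forall fun x hx => hC x hx)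

theorem int_sq_sub {f : V → ℝ} (hf : Continuous f) (hU : L2F U) (i : Fin 3) :
    IntegrableOn (fun x => (f x - U x i) ^ 2) cube :=
  ((memLp_c hf).sub (hU i)).integrable_sq

theorem energy_add_le {a b : V → V} (ha : ∀ i, Continuous fun x => a x i)
    (hb : ∀ i, Continuous fun x => b x i) (hU : L2F U) :
    energy (fun x => a x - b x) ≤ 2 * energy (fun x => a x - U x) + 2 * energy (fun x => b x - U x)
    := by
  unfold energy
  rw [Finset.mul_sum, Finset.mul_sum, ← Finset.sum_add_distrib]
  refine Finset.sum_le_sum fun i _ => ?_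
  simp only [Pi.sub_apply]
  rw [← integral_const_mul, ← integral_const_mul, ← integral_add
    ((int_sq_sub (ha i) hU i).const_mul 2) ((int_sq_sub (hb i) hU i).const_mul 2)]
  refine integral_mono (integrableOn_cube (((ha i).sub (hb i)).pow 2))
    (((int_sq_sub (ha i) hU i).const_mul 2).add ((int_sq_sub (hb i) hU i).const_mul 2)) fun x => ?_
  simp only [Pi.sub_apply]
  nlinarith [sq_nonneg ((a x i - U x i) + (b x i - U x i))]

theorem energy_three_le {a b c : V → V} (ha : ∀ i, Continuous fun x => a x i)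
    (hb : ∀ i, Continuous fun x => b x i) (hc : ∀ i, Continuous fun x => c x i) (hU : L2F U) :
    energy (fun x => (2 : ℝ)⁻¹ • (a x + b x) - c x) ≤ 3 * (energy (fun x => a x - U x)
      + energy (fun x => b x - U x) + energy (fun x => c x - U x)) := by
  unfold energy
  rw [← Finset.sum_add_distrib, ← Finset.sum_add_distrib, Finset.mul_sum]
  refine Finset.sum_le_sum fun i _ => ?_
  simp only [Pi.sub_apply, Pi.add_apply, Pi.smul_apply, smul_eq_mul]
  have iab : IntegrableOn (fun x => (a x i - U x i) ^ 2 + (b x i - U x i) ^ 2) cube :=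
    (int_sq_sub (ha i) hU i).add (int_sq_sub (hb i) hU i)
  have iabc : IntegrableOn (fun x => (a x i - U x i) ^ 2 + (b x i - U x i) ^ 2
    + (c x i - U x i) ^ 2) cube := iab.add (int_sq_sub (hc i) hU i)
  rw [← integral_add (int_sq_sub (ha i) hU i) (int_sq_sub (hb i) hU i), ← integral_add
    iab (int_sq_sub (hc i) hU i), ← integral_const_mul]
  refine integral_mono ?_ (iabc.const_mul 3) fun x => ?_
  · refine integrableOn_cube ?_
    have : Continuous fun x => (2 : ℝ)⁻¹ * (a x i + b x i) - c x i :=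
      (continuous_const.mul ((ha i).add (hb i))).sub (hc i)
    exact this.pow 2
  · simp only
    have e : (2 : ℝ)⁻¹ * (a x i + b x i) - c x i
        = 2⁻¹ * (a x i - U x i) + 2⁻¹ * (b x i - U x i) - (c x i - U x i) := by ring
    rw [e]
    nlinarith [sq_nonneg ((a x i - U x i) - (b x i - U x i)), sq_nonneg ((a x i - U x i)
      + 2 * (c x i - U x i)), sq_nonneg ((b x i - U x i) + 2 * (c x i - U x i)),
      sq_nonneg (a x i - U x i), sq_nonneg (b x i - U x i), sq_nonneg (c x i - U x i)]

theorem ip_sq_le {a b : V → V} (ha : ∀ i, Continuous fun x => a x i)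
    (hb : ∀ i, Continuous fun x => b x i) :
    ip a b ≤ Real.sqrt (energy a) * Real.sqrt (energy b) := by
  unfold ip energy
  calc ∑ i, ∫ x in cube, a x i * b x i
      ≤ ∑ i, Real.sqrt (∫ x in cube, a x i ^ 2) * Real.sqrt (∫ x in cube, b x i ^ 2) :=
        Finset.sum_le_sum fun i _ => (le_abs_self _).trans (abs_int_mul_le (ha i) (hb i))
    _ ≤ _ := Real.sum_sqrt_mul_sqrt_le _ (fun i => integral_nonneg fun _ => sq_nonneg _)
        (fun i => integral_nonneg fun _ => sq_nonneg _)

theorem gip_le {a b : V → V} (ha : ∀ i, SP fun x => a x i) (hb : ∀ i, SP fun x => b x i) :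
    gip a b ≤ 1 / 4 * enstrophy a + enstrophy b := by
  unfold gip enstrophy
  rw [Finset.mul_sum, ← Finset.sum_add_distrib]
  refine Finset.sum_le_sum fun i _ => ?_
  rw [Finset.mul_sum, ← Finset.sum_add_distrib]
  refine Finset.sum_le_sum fun j _ => ?_
  have h1 : IntegrableOn (fun x => pd j (fun y => a y i) x ^ 2) cube :=
    integrableOn_cube (((ha i).pd j).cont.pow 2)
  have h2 : IntegrableOn (fun x => pd j (fun y => b y i) x ^ 2) cube :=
    integrableOn_cube (((hb i).pd j).cont.pow 2)
  rw [← integral_const_mul, ← integral_add (h1.const_mul _) h2]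
  refine integral_mono (((ha i).pd j).mul ((hb i).pd j)).int ((h1.const_mul _).add h2) fun x => ?_
  simp only [Pi.add_apply]
  nlinarith [sq_nonneg (pd j (fun y => a y i) x / 2 - pd j (fun y => b y i) x)]

theorem continuousOn_dsq (h : IsSol 1 T u p) (hU : L2F U) :
    ContinuousOn (dsq u U) (Ico 0 T) := by
  unfold dsq energy
  refine continuousOn_finsetSum _ fun i _ => ?_
  simp only [Pi.sub_apply]
  intro t ht
  obtain ⟨b, hb1, hb2⟩ := exists_between ht.2
  have hK : IsCompact (Icc 0 b ×ˢ cube) := isCompact_Icc.prod isCompact_Icc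
  have hsub : Icc 0 b ×ˢ cube ⊆ Ico 0 T ×ˢ (univ : Set V) :=
    prod_mono (fun s hs => ⟨hs.1, hs.2.trans_lt hb2⟩) (subset_univ _)
  have hF : ContinuousOn (fun z : ℝ × V => u z.1 z.2 i) (Ico 0 T ×ˢ univ) :=
    (h.smooth_c i).continuousOn
  obtain ⟨C, hC⟩ := hK.exists_bound_of_continuousOn (hF.mono hsub)
  have hev : ∀ᶠ s in 𝓝[Ico 0 T] t, s ∈ Icc 0 b := by
    have h1 : ∀ᶠ s in 𝓝[Ico 0 T] t, s < b := nhdsWithin_le_nhds (Iio_mem_nhds hb1)
    filter_upwards [h1, self_mem_nhdsWithin] with s hs1 hs2
    exact ⟨hs2.1, hs1.le⟩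
  have hmeas : MeasurableSet cube := measurableSet_Icc
  have := cube_finite
  refine continuousWithinAt_of_dominated (bound := fun x => 2 * C ^ 2 + 2 * U x i ^ 2) ?_ ?_ ?_ ?_
  · filter_upwards [hev] with s hs
    have hs' : s ∈ Ico 0 T := ⟨hs.1, hs.2.trans_lt hb2⟩
    exact (int_sq_sub (h.sp hs' i).cont hU i).aestronglyMeasurable
  · filter_upwards [hev] with s hs
    refine (ae_restrict_iff' hmeas).2 (Filter.Eventually.of_forall fun x hx => ?_)
    have h1 := hC (s, x) ⟨hs, hx⟩
    simp only at h1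
    rw [Real.norm_eq_abs, abs_of_nonneg (sq_nonneg _)]
    have h2 : u s x i ^ 2 ≤ C ^ 2 := by
      rw [← sq_abs]
      exact pow_le_pow_left₀ (abs_nonneg _) h1 2
    nlinarith [sq_nonneg (u s x i + U x i)]
  · exact (integrable_const _).add ((hU i).integrable_sq.const_mul 2)
  · refine Filter.Eventually.of_forall fun x => ?_
    have h1 : ContinuousWithinAt (fun z : ℝ × V => u z.1 z.2 i)
        (Ico 0 T ×ˢ univ) (t, x) := hF (t, x) ⟨ht, mem_univ _⟩
    have h2 : ContinuousWithinAt (fun s : ℝ => u s x i) (Ico 0 T) t :=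
      h1.comp (t := Ico 0 T ×ˢ univ) (f := fun s : ℝ => ((s, x) : ℝ × V))
        (by fun_prop) (fun s hs => ⟨hs, mem_univ _⟩)
    exact (h2.sub continuousWithinAt_const).pow 2

/-- Integrability of the enstrophy up to the singular time. -/
theorem integrable_enstrophy (h : IsSol 1 T u p) (hT : 0 < T) :
    IntegrableOn (fun t => enstrophy (u t)) (Ioo 0 T) := by
  have h1 : ∀ n : ℕ, T - T / (n + 2) ∈ Ico 0 T := by
    intro n
    have h2 : (0 : ℝ) < n + 2 := by positivity
    have h3 : 0 < T / (n + 2) := by positivity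
    have h4 : T / (n + 2) ≤ T := by
      rw [div_le_iff₀ h2]
      nlinarith [Nat.cast_nonneg (α := ℝ) n]
    constructor <;> linarith
  have hlim : Tendsto (fun n : ℕ => T - T / ((n : ℝ) + 2)) atTop (𝓝 T) := by
    have h2 : Tendsto (fun n : ℕ => T / ((n : ℝ) + 2)) atTop (𝓝 0) := by
      refine Tendsto.div_atTop tendsto_const_nhds ?_
      exact tendsto_atTop_add_const_right _ _ tendsto_natCast_atTop_atTop
    simpa using tendsto_const_nhds.sub h2
  have key := integrableOn_Ioc_of_intervalIntegral_norm_bounded_right 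
    (f := fun t => enstrophy (u t)) (a := 0) (b₀ := T) (b := fun n : ℕ => T - T / ((n : ℝ) + 2))
    (l := atTop) (I := energy (u 0) / (2 * 1)) (fun n => ?_) hlim
    (Eventually.of_forall fun n => ?_)
  · exact key.mono_set Ioo_subset_Ioc_self
  · have hc : ContinuousOn (fun s => enstrophy (u s)) (Icc 0 (T - T / ((n : ℝ) + 2))) :=
      h.enstrophy_continuousOn.mono fun s hs => ⟨hs.1, hs.2.trans_lt (h1 n).2⟩
    exact (hc.integrableOn_Icc).mono_set Ioc_subset_Icc_self
  · have h2 := h.int_enstrophy one_pos (h1 n)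
    rw [intervalIntegral.integral_of_le (h1 n).1] at h2
    refine le_trans (le_of_eq ?_) h2
    congr 1
    funext s
    rw [Real.norm_eq_abs, abs_of_nonneg (enstrophy_nonneg _)]

theorem integrable_dsq (h : IsSol 1 T u p) (hU : L2F U) :
    IntegrableOn (dsq u U) (Ioo 0 T) := by
  have hb : ∀ t ∈ Ioo 0 T, ‖dsq u U t‖ ≤ 2 * energy (u 0) + 2 * energy U := by
    intro t ht
    have hI : t ∈ Ico 0 T := ⟨ht.1.le, ht.2⟩
    rw [Real.norm_eq_abs, abs_of_nonneg (dsq_nonneg _ _ _)]
    refine le_trans ?_ (add_le_add_left (mul_le_mul_of_nonneg_left (h.energy_le one_pos hI)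
      (by norm_num)) _)
    unfold dsq energy
    rw [Finset.mul_sum, Finset.mul_sum, ← Finset.sum_add_distrib]
    refine Finset.sum_le_sum fun i _ => ?_
    have i1 : IntegrableOn (fun x => u t x i ^ 2) cube := integrableOn_cube ((h.sp hI i).cont.pow 2)
    have i2 : IntegrableOn (fun x => U x i ^ 2) cube := (hU i).integrable_sq
    rw [← integral_const_mul, ← integral_const_mul, ← integral_add (i1.const_mul _)
      (i2.const_mul _)]
    refine integral_mono (int_sq_sub (h.sp hI i).cont hU i) ((i1.const_mul _).add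
      (i2.const_mul _)) fun x => ?_
    simp only [Pi.sub_apply]
    nlinarith [sq_nonneg (u t x i + U x i)]
  refine Integrable.of_bound ?_ (2 * energy (u 0) + 2 * energy U)
    ((ae_restrict_iff' measurableSet_Ioo).2 (Eventually.of_forall hb))
  exact ((continuousOn_dsq h hU).mono Ioo_subset_Ico_self).aestronglyMeasurable measurableSet_Ioo

theorem S_tp (hbd : S_bd) (hcr : S_cross) (hmean : S_mean) : ∃ C : ℝ, 0 ≤ C ∧
    ∀ (T : ℝ) (u : ℝ → V → V) (p : ℝ → V → ℝ) (U : V → V), IsSol 1 T u p → L2F U →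
    ∃ L : ℝ, 0 ≤ L ∧ ∀ h0 : ℝ, 0 < h0 → h0 ≤ T →
      TP C L T h0 (fun t => enstrophy (u t)) (fun t => Real.sqrt (dsq u U t)) := by
  obtain ⟨C, hC0, hC⟩ := hbd
  refine ⟨2 * (1 + 2 * C) + 6, by positivity, fun T u p U h hU => ?_⟩
  set m : ℝ := ∑ i, |∫ x in cube, u 0 x i| with hm
  have hm0 : 0 ≤ m := Finset.sum_nonneg fun _ _ => abs_nonneg _
  refine ⟨m ^ 2, sq_nonneg _, fun h0 hh0 hhT t1 ht1 a ha b hb hab => ?_⟩
  have hI : ∀ t ∈ Ioo (T - h0) T, t ∈ Ico 0 T := fun t ht => ⟨by linarith [ht.1], ht.2⟩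
  have hc : ∀ t ∈ Ioo (T - h0) T, ∀ i, Continuous fun x => u t x i :=
    fun t ht i => (h.sp (hI t ht) i).cont
  have ha0 : 0 < a := by linarith [ha.1]
  have hsq : ∀ t, Real.sqrt (dsq u U t) ^ 2 = dsq u U t := fun t => Real.sq_sqrt (dsq_nonneg _ _ _)
  set v := u t1 with hv
  set y : ℝ → ℝ := fun t => enstrophy (u t) with hy
  set d : ℝ → ℝ := fun t => Real.sqrt (dsq u U t) with hd
  have hd0 : ∀ t, 0 ≤ d t := fun t => Real.sqrt_nonneg _
  have hd2 : ∀ t, d t ^ 2 = dsq u U t := hsq
  have hsub : Icc a b ⊆ Ico 0 T := fun s hs => ⟨ha0.le.trans hs.1, hs.2.trans_lt hb.2⟩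
  have hsub' : Icc a b ⊆ Ioo (T - h0) T := fun s hs => ⟨ha.1.trans_le hs.1, hs.2.trans_lt hb.2⟩
  obtain ⟨cg, ct, hid⟩ := hcr 1 T u p v h (fun i => h.sp (hI t1 ht1) i)
    (h.divfree t1 (hI t1 ht1))
  have key := hid a b ha0 hab hb.2
  simp only [one_mul] at key
  -- integrability
  have iy : IntervalIntegrable y volume a b :=
    (h.enstrophy_continuousOn.mono hsub).intervalIntegrable_of_Icc hab
  have id2 : IntervalIntegrable (fun s => d s ^ 2) volume a b := by
    have : ContinuousOn (fun s => d s ^ 2) (Icc a b) := by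
      refine ((continuousOn_dsq h hU).mono hsub).congr fun s _ => hd2 s
    exact this.intervalIntegrable_of_Icc hab
  have ig : IntervalIntegrable (fun s => gip (u s) v - tr (u s) v (u s)) volume a b :=
    ((cg.sub ct).mono hsub).intervalIntegrable_of_Icc hab
  have hmono : ∫ s in a..b, (gip (u s) v - tr (u s) v (u s))
      ≤ ∫ s in a..b, (1 / 2 * y s + (1 + 2 * C) * (y t1 + m ^ 2 + (y t1 ^ 2 + m ^ 2)
        * (d s ^ 2 + d t1 ^ 2))) := by
    refine intervalIntegral.integral_mono_on hab ig ?_ fun s hs => ?_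
    · refine (iy.const_mul _).add (IntervalIntegrable.const_mul ?_ _)
      refine intervalIntegrable_const.add (IntervalIntegrable.const_mul ?_ _)
      exact id2.add intervalIntegrable_const
    · have hs' := hsub' hs
      have h1 := gip_le (a := u s) (b := v) (fun i => h.sp (hI s hs') i)
        (fun i => h.sp (hI t1 ht1) i)
      have h2 := hC (u s) v m (fun i => h.sp (hI s hs') i) (fun i => h.sp (hI t1 ht1) i)
        (h.divfree s (hI s hs')) (h.divfree t1 (hI t1 ht1))
        (fun i => by rw [hmean 1 T u p h s (hI s hs') i, hv, hmean 1 T u p h t1 (hI t1 ht1) i])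
        (fun i => by
          rw [hv, hmean 1 T u p h t1 (hI t1 ht1) i]
          exact Finset.single_le_sum (f := fun i => |∫ x in cube, u 0 x i|)
            (fun _ _ => abs_nonneg _) (Finset.mem_univ i))
      have h3 := (abs_le.1 h2).1
      have h4 : energy (fun x => u s x - v x) ≤ 2 * d s ^ 2 + 2 * d t1 ^ 2 := by
        rw [hd2, hd2]
        exact energy_add_le (hc s hs') (hc t1 ht1) hU
      have h5 : C * (enstrophy v + (enstrophy v ^ 2 + m ^ 2) * energy (fun x => u s x - v x))
          ≤ C * (enstrophy v + (enstrophy v ^ 2 + m ^ 2) * (2 * d s ^ 2 + 2 * d t1 ^ 2)) := by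
        gcongr
      have h6 : 0 ≤ y t1 := enstrophy_nonneg _
      have h7 : 0 ≤ C * (enstrophy v + 2 * m ^ 2) := by
        have : 0 ≤ enstrophy v := enstrophy_nonneg _
        positivity
      have h8 : 0 ≤ m ^ 2 + (y t1 ^ 2 + m ^ 2) * (d s ^ 2 + d t1 ^ 2) := by positivity
      have e1 : y t1 = enstrophy v := rfl
      have e2 : y s = enstrophy (u s) := rfl
      rw [e1] at h8 ⊢
      rw [e2]
      nlinarith
  rw [intervalIntegral.integral_add (iy.const_mul _) (by
      refine IntervalIntegrable.const_mul ?_ _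
      refine intervalIntegrable_const.add (IntervalIntegrable.const_mul ?_ _)
      exact id2.add intervalIntegrable_const), intervalIntegral.integral_const_mul,
    intervalIntegral.integral_const_mul] at hmono
  -- the boundary term
  have hB : (energy (u a) / 2 - ip (u a) v) - (energy (u b) / 2 - ip (u b) v)
      ≤ 3 * ((d a + d b) * (d a + d b + d t1)) := by
    have e : (energy (u a) / 2 - ip (u a) v) - (energy (u b) / 2 - ip (u b) v)
        = ip (fun x => u a x - u b x) (fun x => (2 : ℝ)⁻¹ • (u a x + u b x) - v x) := by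
      unfold ip energy
      rw [Finset.sum_div, Finset.sum_div, ← Finset.sum_sub_distrib, ← Finset.sum_sub_distrib,
        ← Finset.sum_sub_distrib]
      refine Finset.sum_congr rfl fun i _ => ?_
      have ca := hc a ha i
      have cb := hc b hb i
      have cv : Continuous fun x => v x i := hc t1 ht1 i
      rw [← integral_div, ← integral_div, ← integral_sub, ← integral_sub, ← integral_sub]
      · refine integral_congr_ae (Eventually.of_forall fun x => ?_)
        simp only [Pi.sub_apply, Pi.add_apply, Pi.smul_apply, smul_eq_mul]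
        ring
      · exact integrableOn_cube (((ca.pow 2).div_const 2).sub (ca.mul cv))
      · exact integrableOn_cube (((cb.pow 2).div_const 2).sub (cb.mul cv))
      · exact integrableOn_cube ((cb.pow 2).div_const 2)
      · exact integrableOn_cube (cb.mul cv)
      · exact integrableOn_cube ((ca.pow 2).div_const 2)
      · exact integrableOn_cube (ca.mul cv)
    rw [e]
    have h1 := ip_sq_le (a := fun x => u a x - u b x)
      (b := fun x => (2 : ℝ)⁻¹ • (u a x + u b x) - v x)
      (fun i => (hc a ha i).sub (hc b hb i)) (fun i => by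
        have : Continuous fun x => (2 : ℝ)⁻¹ * (u a x i + u b x i) - v x i :=
          (continuous_const.mul ((hc a ha i).add (hc b hb i))).sub (hc t1 ht1 i)
        exact this)
    have h2 : energy (fun x => u a x - u b x) ≤ 2 * d a ^ 2 + 2 * d b ^ 2 := by
      rw [hd2, hd2]
      exact energy_add_le (hc a ha) (hc b hb) hU
    have h3 : energy (fun x => (2 : ℝ)⁻¹ • (u a x + u b x) - v x)
        ≤ 3 * (d a ^ 2 + d b ^ 2 + d t1 ^ 2) := by
      rw [hd2, hd2, hd2]
      exact energy_three_le (hc a ha) (hc b hb) (hc t1 ht1) hU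
    have da := hd0 a
    have db := hd0 b
    have d1 := hd0 t1
    refine h1.trans ?_
    have h4 : Real.sqrt (energy (fun x => u a x - u b x)) ≤ 3 / 2 * (d a + d b) := by
      rw [Real.sqrt_le_left (by positivity)]
      refine h2.trans ?_
      nlinarith [mul_nonneg da db]
    have h5 : Real.sqrt (energy (fun x => (2 : ℝ)⁻¹ • (u a x + u b x) - v x))
        ≤ 2 * (d a + d b + d t1) := by
      rw [Real.sqrt_le_left (by positivity)]
      refine h3.trans ?_
      nlinarith [mul_nonneg da db, mul_nonneg da d1, mul_nonneg db d1, sq_nonneg (d a),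
        sq_nonneg (d b), sq_nonneg (d t1)]
    calc Real.sqrt (energy (fun x => u a x - u b x))
          * Real.sqrt (energy (fun x => (2 : ℝ)⁻¹ • (u a x + u b x) - v x))
        ≤ (3 / 2 * (d a + d b)) * (2 * (d a + d b + d t1)) := by gcongr
      _ = _ := by ring
  set J := ∫ s in a..b, (y t1 + m ^ 2 + (y t1 ^ 2 + m ^ 2) * (d s ^ 2 + d t1 ^ 2)) with hJ
  have hJ0 : 0 ≤ J := intervalIntegral.integral_nonneg hab fun s _ => by
    have h6 : 0 ≤ y t1 := enstrophy_nonneg _
    positivity
  have hP0 : 0 ≤ (d a + d b) * (d a + d b + d t1) := by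
    have da := hd0 a
    have db := hd0 b
    have d1 := hd0 t1
    positivity
  show ∫ s in a..b, y s ≤ _
  have e3 : ∫ s in a..b, y s = ∫ s in a..b, enstrophy (u s) := rfl
  rw [← e3] at key
  nlinarith [mul_nonneg hC0 hP0]

end

end Pool.Agent.W795.TQ
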