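import Mathlib

/-!
The time modulus of continuity at a singular time: the real-variable statements.
-/

open MeasureTheory Set

namespace Pool.Agent.W795.TQ

/-- The two-point inequality for the enstrophy `y` and the distance `d` to the state at time `T`,
on the time interval `(T - h0, T)`. -/
def TP (C L T h0 : ℝ) (y d : ℝ → ℝ) : Prop :=
  ∀ t1 ∈ Ioo (T - h0) T, ∀ a ∈ Ioo (T - h0) T, ∀ b ∈ Ioo (T - h0) T, a ≤ b →
    ∫ s in a..b, y s ≤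
      C * (∫ s in a..b, (y t1 + L + (y t1 ^ 2 + L) * (d s ^ 2 + d t1 ^ 2)))
        + C * ((d a + d b) * (d a + d b + d t1))

/-- From the two-point inequality and `∫ d² ≤ k² h^{3/2}` to `∫ y ≤ C k² √h` for arbitrarily small
`h`. -/
def S_iter : Prop :=
  ∀ C : ℝ, 0 ≤ C → ∃ C1 : ℝ, 0 < C1 ∧ ∀ (k L T h0 : ℝ) (y d : ℝ → ℝ),
    0 < k → k ≤ 1 → 0 ≤ L → 0 < h0 → (∀ t, 0 ≤ y t) → (∀ t, 0 ≤ d t) →
    IntegrableOn y (Ioo (T - h0) T) → IntegrableOn (fun t => d t ^ 2) (Ioo (T - h0) T) →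
    TP C L T h0 y d →
    (∀ h : ℝ, 0 < h → h ≤ h0 → ∫ t in (T - h)..T, d t ^ 2 ≤ k ^ 2 * h ^ (3 / 2 : ℝ)) →
    ∀ h1 : ℝ, 0 < h1 → ∃ h : ℝ, 0 < h ∧ h < h1 ∧ h ≤ h0 ∧
      ∫ t in (T - h)..T, y t ≤ C1 * (k ^ 2 * Real.sqrt h)

end Pool.Agent.W795.TQ
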